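import Pool.Agent.Lib.BVH.MSieve
import Pool.Agent.Lib.BV.TypeII

/-!
MODULE BVH.Block (1.2 h).  The large sieve for one dyadic block.

`blk U X i` is the set of the m in (U, X] with 2^i ≤ m < 2^(i+1) (`Nat.log 2 m = i`).

PROOF of `bA_sieve`.  ‖bA f U X i q χ t‖ = ‖∑_{n ∈ Ioc (2^i - 1) (2^i - 1 + 2^i)} a n χ(n)‖ with
a n = f n n^(-(1 + t I)) on blk U X i and 0 elsewhere (all m of the block lie in
[2^i, 2^(i+1)) = Ioc (2^i - 1) (2^i - 1 + 2^i)), ‖a n‖ = |f n|/n.  `mult_sieve` with M = 2^i: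
≤ C (2^i + Q²) ∑_{n ∈ blk} g(n)²/n² ≤ C (2^i + Q²) 2^(-i) ∑_{n ≤ X} g(n)²/n.

PROOF of `bB_sieve`.  The same without the factor n^(-(1+tI)):
≤ C (2^i + Q²) ∑_{n ∈ blk} g(n)² ≤ C (2^i + Q²) 2^(i+1) ∑_{n ≤ X} g(n)²/n
= 2 C 4^i (1 + Q²/2^i) ∑_{n ≤ X} g(n)²/n.
-/

set_option autoImplicit false

open Complex MeasureTheory

namespace Pool.Agent.BVH

open Pool.Agent.Lib.BV

/-- the dyadic block -/
def blk (U X i : ℕ) : Finset ℕ := (Finset.Ioc U X).filter (fun m => Nat.log 2 m = i)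

/-- the twisted Dirichlet polynomial over a block -/
noncomputable def bA (f : ℕ → ℝ) (U X i : ℕ) (q : ℕ) (χ : DirichletCharacter ℂ q) (t : ℝ) : ℂ :=
  ∑ m ∈ blk U X i, ((f m : ℝ) : ℂ) * χ (m : ZMod q) * (m:ℂ) ^ (-(1 + t * I))

/-- the twisted sum over a block -/
noncomputable def bB (f : ℕ → ℝ) (U X i : ℕ) (q : ℕ) (χ : DirichletCharacter ℂ q) : ℂ :=
  ∑ m ∈ blk U X i, ((f m : ℝ) : ℂ) * χ (m : ZMod q)

namespace BlockAux

lemma mem_blk {U X i m : ℕ} (h : m ∈ blk U X i) : U < m ∧ m ≤ X ∧ 2 ^ i ≤ m ∧ m < 2 ^ (i + 1) := by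
  unfold blk at h
  rw [Finset.mem_filter, Finset.mem_Ioc] at h
  obtain ⟨⟨h1, h2⟩, h3⟩ := h
  have h0 : m ≠ 0 := by omega
  refine ⟨h1, h2, ?_, ?_⟩
  · rw [← h3]; exact Nat.pow_log_le_self 2 h0
  · rw [← h3]; exact Nat.lt_pow_succ_log_self (by norm_num) m

lemma blk_sub (U X i : ℕ) : blk U X i ⊆ Finset.Ioc (2 ^ i - 1) (2 ^ i - 1 + 2 ^ i) := by
  intro m hm
  obtain ⟨_, _, h3, h4⟩ := mem_blk hm
  have h5 : 0 < 2 ^ i := by positivity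
  rw [pow_succ] at h4
  rw [Finset.mem_Ioc]
  omega

lemma blk_sub' (U X i : ℕ) : blk U X i ⊆ Finset.Icc 1 X := by
  intro m hm
  obtain ⟨h1, h2, _, _⟩ := mem_blk hm
  rw [Finset.mem_Icc]
  omega

open scoped Classical in
lemma sieve : ∃ C : ℝ, 1 ≤ C ∧ ∀ (c : ℕ → ℂ) (Q U X i : ℕ),
    primSum Q (fun q χ => ‖∑ m ∈ blk U X i, c m * χ (m : ZMod q)‖ ^ 2) ≤
      C * ((2:ℝ) ^ i + (Q : ℝ) ^ 2) * ∑ m ∈ blk U X i, ‖c m‖ ^ 2 := by
  obtain ⟨C, hC, h⟩ := mult_sieve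
  refine ⟨C, hC, fun c Q U X i => ?_⟩
  have h1 := h Q (2 ^ i - 1) (2 ^ i) (fun m => if m ∈ blk U X i then c m else 0)
  have e1 : ∀ (q : ℕ) (χ : DirichletCharacter ℂ q),
      ∑ m ∈ Finset.Ioc (2 ^ i - 1) (2 ^ i - 1 + 2 ^ i), (if m ∈ blk U X i then c m else 0) *
        χ (m : ZMod q) = ∑ m ∈ blk U X i, c m * χ (m : ZMod q) := by
    intro q χ
    rw [← Finset.sum_subset (blk_sub U X i)]
    · refine Finset.sum_congr rfl fun m hm => ?_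
      rw [if_pos hm]
    · intro m _ hm
      rw [if_neg hm, zero_mul]
  have e2 : ∑ m ∈ Finset.Ioc (2 ^ i - 1) (2 ^ i - 1 + 2 ^ i),
      ‖(if m ∈ blk U X i then c m else 0)‖ ^ 2 = ∑ m ∈ blk U X i, ‖c m‖ ^ 2 := by
    rw [← Finset.sum_subset (blk_sub U X i)]
    · refine Finset.sum_congr rfl fun m hm => ?_
      rw [if_pos hm]
    · intro m _ hm
      rw [if_neg hm, norm_zero]
      norm_num
  simp only [e1, e2] at h1
  push_cast at h1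
  exact h1

lemma norm_cpow (m : ℕ) (hm : 1 ≤ m) (t : ℝ) : ‖(m:ℂ) ^ (-(1 + (t:ℂ) * I))‖ = 1 / m := by
  have hm0 : 0 < (m:ℝ) := by exact_mod_cast hm
  have e : ‖(m:ℂ) ^ (-(1 + (t:ℂ) * I))‖ = (m:ℝ) ^ (-(1 + (t:ℂ) * I)).re := by
    have := Complex.norm_cpow_eq_rpow_re_of_pos hm0 (-(1 + (t:ℂ) * I))
    simpa using this
  rw [e]
  have e2 : (-(1 + (t:ℂ) * I)).re = -1 := by simp
  rw [e2, Real.rpow_neg_one, one_div]

end BlockAux

theorem bA_sieve : ∃ C : ℝ, 1 ≤ C ∧ ∀ (f g : ℕ → ℝ), (∀ n, |f n| ≤ g n) →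
    ∀ (Q U X i : ℕ) (t : ℝ), primSum Q (fun q χ => ‖bA f U X i q χ t‖ ^ 2) ≤
      C * (1 + (Q : ℝ) ^ 2 / 2 ^ i) * ∑ n ∈ Finset.Icc 1 X, g n ^ 2 / n := by
  obtain ⟨C, hC, h⟩ := BlockAux.sieve
  refine ⟨C, hC, fun f g hfg Q U X i t => ?_⟩
  have h1 := h (fun m => ((f m : ℝ) : ℂ) * (m:ℂ) ^ (-(1 + t * I))) Q U X i
  have e1 : (fun (q : ℕ) (χ : DirichletCharacter ℂ q) => ‖bA f U X i q χ t‖ ^ 2) =
      fun q χ => ‖∑ m ∈ blk U X i, (((f m : ℝ) : ℂ) * (m:ℂ) ^ (-(1 + t * I))) *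
        χ (m : ZMod q)‖ ^ 2 := by
    funext q χ
    congr 2
    unfold bA
    refine Finset.sum_congr rfl fun m _ => ?_
    ring
  rw [e1]
  refine h1.trans ?_
  have hp : (0:ℝ) < 2 ^ i := by positivity
  have hS : ∑ m ∈ blk U X i, ‖((f m : ℝ) : ℂ) * (m:ℂ) ^ (-(1 + t * I))‖ ^ 2 ≤
      (1 / 2 ^ i) * ∑ n ∈ Finset.Icc 1 X, g n ^ 2 / n := by
    calc _ ≤ ∑ m ∈ blk U X i, (1 / 2 ^ i) * (g m ^ 2 / m) := by
          refine Finset.sum_le_sum fun m hm => ?_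
          obtain ⟨hm1, hm2, hm3, hm4⟩ := BlockAux.mem_blk hm
          have hm0 : 1 ≤ m := by omega
          have hm0' : (0:ℝ) < m := by exact_mod_cast hm0
          have hm3' : (2:ℝ) ^ i ≤ m := by exact_mod_cast hm3
          rw [norm_mul, BlockAux.norm_cpow m hm0 t, Complex.norm_real, Real.norm_eq_abs]
          have hf : |f m| ^ 2 ≤ g m ^ 2 := pow_le_pow_left₀ (abs_nonneg _) (hfg m) 2
          have hg : 0 ≤ g m ^ 2 := by positivity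
          calc (|f m| * (1 / (m:ℝ))) ^ 2 = |f m| ^ 2 / ((m:ℝ) * m) := by
                field_simp
            _ ≤ g m ^ 2 / ((2:ℝ) ^ i * m) := by
                apply div_le_div₀ hg hf (by positivity)
                exact mul_le_mul_of_nonneg_right hm3' hm0'.le
            _ = _ := by field_simp
      _ = (1 / 2 ^ i) * ∑ m ∈ blk U X i, (g m ^ 2 / m) := by rw [Finset.mul_sum]
      _ ≤ _ := by
          apply mul_le_mul_of_nonneg_left _ (by positivity)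
          exact Finset.sum_le_sum_of_subset_of_nonneg (BlockAux.blk_sub' U X i)
            fun n _ _ => by positivity
  calc _ ≤ C * ((2:ℝ) ^ i + (Q : ℝ) ^ 2) * ((1 / 2 ^ i) * ∑ n ∈ Finset.Icc 1 X, g n ^ 2 / n) :=
        mul_le_mul_of_nonneg_left hS (by positivity)
    _ = _ := by
        have : C * ((2:ℝ) ^ i + (Q : ℝ) ^ 2) * (1 / 2 ^ i) = C * (1 + (Q : ℝ) ^ 2 / 2 ^ i) := by
          field_simp
        rw [← mul_assoc, this]

theorem bB_sieve : ∃ C : ℝ, 1 ≤ C ∧ ∀ (f g : ℕ → ℝ), (∀ n, |f n| ≤ g n) →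
    ∀ (Q U X i : ℕ), primSum Q (fun q χ => ‖bB f U X i q χ‖ ^ 2) ≤
      C * 4 ^ i * (1 + (Q : ℝ) ^ 2 / 2 ^ i) * ∑ n ∈ Finset.Icc 1 X, g n ^ 2 / n := by
  obtain ⟨C, hC, h⟩ := BlockAux.sieve
  refine ⟨2 * C, by linarith, fun f g hfg Q U X i => ?_⟩
  have h1 := h (fun m => ((f m : ℝ) : ℂ)) Q U X i
  have e1 : (fun (q : ℕ) (χ : DirichletCharacter ℂ q) => ‖bB f U X i q χ‖ ^ 2) =
      fun q χ => ‖∑ m ∈ blk U X i, ((f m : ℝ) : ℂ) * χ (m : ZMod q)‖ ^ 2 := rfl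
  rw [e1]
  refine h1.trans ?_
  have hp : (0:ℝ) < 2 ^ i := by positivity
  have hS : ∑ m ∈ blk U X i, ‖((f m : ℝ) : ℂ)‖ ^ 2 ≤
      (2 ^ (i + 1)) * ∑ n ∈ Finset.Icc 1 X, g n ^ 2 / n := by
    calc _ ≤ ∑ m ∈ blk U X i, (2 ^ (i + 1)) * (g m ^ 2 / m) := by
          refine Finset.sum_le_sum fun m hm => ?_
          obtain ⟨hm1, hm2, hm3, hm4⟩ := BlockAux.mem_blk hm
          have hm0 : 1 ≤ m := by omega
          have hm0' : (0:ℝ) < m := by exact_mod_cast hm0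
          have hm4' : (m:ℝ) ≤ 2 ^ (i + 1) := by exact_mod_cast hm4.le
          rw [Complex.norm_real, Real.norm_eq_abs]
          have hf : |f m| ^ 2 ≤ g m ^ 2 := pow_le_pow_left₀ (abs_nonneg _) (hfg m) 2
          have hg : 0 ≤ g m ^ 2 / m := by positivity
          calc |f m| ^ 2 ≤ g m ^ 2 := hf
            _ = (m:ℝ) * (g m ^ 2 / m) := by field_simp
            _ ≤ _ := mul_le_mul_of_nonneg_right hm4' hg
      _ = (2 ^ (i + 1)) * ∑ m ∈ blk U X i, (g m ^ 2 / m) := by rw [Finset.mul_sum]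
      _ ≤ _ := by
          apply mul_le_mul_of_nonneg_left _ (by positivity)
          exact Finset.sum_le_sum_of_subset_of_nonneg (BlockAux.blk_sub' U X i)
            fun n _ _ => by positivity
  calc _ ≤ C * ((2:ℝ) ^ i + (Q : ℝ) ^ 2) * ((2 ^ (i + 1)) * ∑ n ∈ Finset.Icc 1 X, g n ^ 2 / n) :=
        mul_le_mul_of_nonneg_left hS (by positivity)
    _ = _ := by
        have e4 : (4:ℝ) ^ i = 2 ^ i * 2 ^ i := by
          rw [← mul_pow]; norm_num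
        have : C * ((2:ℝ) ^ i + (Q : ℝ) ^ 2) * (2 ^ (i + 1)) =
            2 * C * 4 ^ i * (1 + (Q : ℝ) ^ 2 / 2 ^ i) := by
          rw [e4, pow_succ (2:ℝ) i]
          field_simp
        rw [← mul_assoc, this]

end Pool.Agent.BVH
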