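import Pool.Agent.Lib.BV.Defs
import Pool.Agent.Lib.BV.TauSum

/-!
MODULE BVH.Dyad (1 h).  Large conductors, dyadic partial summation.

PROOF.  If Q ≤ Q0 the left side is 0.  Otherwise let J be the set of the j ∈ range (Nat.log 2 Q + 1) with
2^j Q0 < Q.  Every q with Q0 < q ≤ Q lies in (2^j Q0, 2^(j+1) Q0] for exactly one j ∈ J, and then
1/φ(q) ≤ 3 log(q+2)/q ≤ 3 log(Q+2)/(2^j Q0) (`inv_totient_le`).  So the left side is at most
∑_{j ∈ J} (3 log(Q+2)/(2^j Q0)) primSum (min Q (2^(j+1) Q0)) G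
≤ ∑_{j ∈ J} 3 log(Q+2) (a/(2^j Q0) + 2 b + 4 c 2^j Q0 + 8 d (2^j Q0)²), and
∑_j 2^(-j) ≤ 2, |J| ≤ Nat.log 2 Q + 1 ≤ 3 log(Q+2), ∑_{j ∈ J} 2^j Q0 ≤ 2 Q and
∑_{j ∈ J} (2^j Q0)² ≤ 2 Q² (geometric sums whose largest term is < Q, resp. < Q²; or crudely
|J| Q, |J| Q²), log(Q+2) ≥ 1 for Q ≥ 1.  The constant 100 is generous.
-/

set_option autoImplicit false

namespace Pool.Agent.BVH

open Pool.Agent.Lib.BV

private lemma dyad_step (Qt Q0 : ℕ) (hQ0 : 1 ≤ Q0) (G : (q : ℕ) → DirichletCharacter ℂ q → ℝ)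
    (hG : ∀ q χ, 0 ≤ G q χ) (a b c d : ℝ) (ha : 0 ≤ a) (hb : 0 ≤ b) (hc : 0 ≤ c) (hd : 0 ≤ d)
    (h : ∀ Q' : ℕ, Q' ≤ Qt → primSum Q' G ≤ a + b * Q' + c * Q' ^ 2 + d * Q' ^ 3)
    (Q : ℕ) (hQ : Q ≤ Qt) :
    primSum Q (fun q χ => if q ≤ Q0 then 0 else G q χ / q.totient) ≤
      primSum (Q / 2) (fun q χ => if q ≤ Q0 then 0 else G q χ / q.totient) +
      6 * Real.log (Qt + 2) * (a / Q0 + b + c * Qt + d * Qt ^ 2) := by
  set R := Q / 2 with hR
  set m : ℕ := max (R + 1) (Q0 + 1) with hm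
  have hQt0 : (0:ℝ) ≤ Qt := Nat.cast_nonneg _
  have hlog : 0 ≤ Real.log ((Qt:ℝ) + 2) := Real.log_nonneg (by linarith)
  have hm1 : (1:ℝ) ≤ m := by
    have : 1 ≤ m := by rw [hm]; exact (Nat.le_add_left 1 R).trans (le_max_left _ _)
    exact_mod_cast this
  have hmpos : (0:ℝ) < m := by linarith
  set κ : ℝ := 3 * Real.log (Qt + 2) / m with hκ
  have hκ0 : 0 ≤ κ := by positivity
  have hRQ : R ≤ Q := Nat.div_le_self _ _
  have hsub : Finset.range R ⊆ Finset.range Q := by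
    intro t ht
    simp only [Finset.mem_range] at *
    omega
  have key : primSum Q (fun q χ => if q ≤ Q0 then 0 else G q χ / q.totient) ≤
      primSum R (fun q χ => if q ≤ Q0 then 0 else G q χ / q.totient) + κ * primSum Q G := by
    unfold primSum
    rw [← Finset.sum_sdiff hsub, add_comm]
    apply add_le_add le_rfl
    rw [Finset.mul_sum]
    refine (Finset.sum_le_sum (g := fun q => κ * ∑ χ : DirichletCharacter ℂ (q+1),
      (open scoped Classical in if χ.IsPrimitive then G (q+1) χ else 0)) ?_).trans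
      (Finset.sum_le_sum_of_subset_of_nonneg Finset.sdiff_subset ?_)
    · intro q hq
      simp only [Finset.mem_sdiff, Finset.mem_range] at hq
      rw [Finset.mul_sum]
      refine Finset.sum_le_sum fun χ _ => ?_
      by_cases h0 : χ.IsPrimitive
      swap
      · rw [if_neg h0, if_neg h0, mul_zero]
      rw [if_pos h0, if_pos h0]
      by_cases h1 : q + 1 ≤ Q0
      · simp only [if_pos h1]
        exact mul_nonneg hκ0 (hG _ _)
      · simp only [if_neg h1]
        have hqm : m ≤ q + 1 := by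
          rw [hm]
          apply max_le <;> omega
        have hqm' : (m:ℝ) ≤ ((q + 1 : ℕ) : ℝ) := by exact_mod_cast hqm
        have h4 := inv_totient_le (q + 1) (by omega)
        have h5 : 3 * Real.log (((q + 1 : ℕ) : ℝ) + 2) / ((q + 1 : ℕ) : ℝ) ≤ κ := by
          rw [hκ]
          have h6 : Real.log (((q + 1 : ℕ) : ℝ) + 2) ≤ Real.log ((Qt:ℝ) + 2) := by
            apply Real.log_le_log (by positivity)
            have : ((q + 1 : ℕ) : ℝ) ≤ Qt := by
              have : q + 1 ≤ Qt := by omega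
              exact_mod_cast this
            linarith
          gcongr
        have h7 := h4.trans h5
        calc G (q+1) χ / ((q+1).totient : ℝ) = 1 / ((q+1).totient : ℝ) * G (q+1) χ := by ring
          _ ≤ κ * G (q+1) χ := mul_le_mul_of_nonneg_right h7 (hG _ _)
    · intro q _ _
      refine mul_nonneg hκ0 (Finset.sum_nonneg fun χ _ => ?_)
      split_ifs
      · exact hG _ _
      · exact le_rfl
  refine key.trans (add_le_add le_rfl ?_)
  have hQ' : (Q:ℝ) ≤ Qt := by exact_mod_cast hQ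
  have hQn : (0:ℝ) ≤ Q := Nat.cast_nonneg _
  have hQm : (Q:ℝ) ≤ 2 * m := by
    have h1 : R + 1 ≤ m := by rw [hm]; exact le_max_left _ _
    have : Q ≤ 2 * m := by omega
    exact_mod_cast this
  have hQ0m : (Q0:ℝ) ≤ m := by
    have h1 : Q0 + 1 ≤ m := by rw [hm]; exact le_max_right _ _
    have : Q0 ≤ m := by omega
    exact_mod_cast this
  have hQ0p : (0:ℝ) < Q0 := by exact_mod_cast hQ0
  have e1 : (a + b * Q + c * Q ^ 2 + d * Q ^ 3) / m ≤ 2 * (a / Q0 + b + c * Qt + d * Qt ^ 2) := by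
    rw [div_le_iff₀ hmpos]
    have f1 : a ≤ 2 * (a / Q0) * m := by
      have : a / Q0 * m = a * (m / Q0) := by ring
      have g1 : 1 ≤ (m:ℝ) / Q0 := by rw [le_div_iff₀ hQ0p]; linarith
      have : a * 1 ≤ a * (m / Q0) := mul_le_mul_of_nonneg_left g1 ha
      have g2 : a / Q0 * m = a * (m / Q0) := by ring
      have g3 : 0 ≤ a / Q0 * m := by positivity
      linarith
    have f2 : b * Q ≤ 2 * b * m := by nlinarith
    have f3 : c * Q ^ 2 ≤ 2 * (c * Qt) * m := by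
      have : (Q:ℝ) ^ 2 ≤ Qt * (2 * m) := by
        rw [sq]; exact mul_le_mul hQ' hQm hQn hQt0
      nlinarith
    have f4 : d * Q ^ 3 ≤ 2 * (d * Qt ^ 2) * m := by
      have : (Q:ℝ) ^ 3 ≤ Qt ^ 2 * (2 * m) := by
        rw [pow_succ]
        exact mul_le_mul (pow_le_pow_left₀ hQn hQ' 2) hQm hQn (by positivity)
      nlinarith
    linarith
  calc κ * primSum Q G ≤ κ * (a + b * Q + c * Q ^ 2 + d * Q ^ 3) :=
        mul_le_mul_of_nonneg_left (h Q hQ) hκ0
    _ = 3 * Real.log (Qt + 2) * ((a + b * Q + c * Q ^ 2 + d * Q ^ 3) / m) := by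
        rw [hκ]; ring
    _ ≤ 3 * Real.log (Qt + 2) * (2 * (a / Q0 + b + c * Qt + d * Qt ^ 2)) :=
        mul_le_mul_of_nonneg_left e1 (by positivity)
    _ = _ := by ring

theorem dyad (Q Q0 : ℕ) (hQ0 : 1 ≤ Q0) (G : (q : ℕ) → DirichletCharacter ℂ q → ℝ)
    (hG : ∀ q χ, 0 ≤ G q χ) (a b c d : ℝ) (ha : 0 ≤ a) (hb : 0 ≤ b) (hc : 0 ≤ c) (hd : 0 ≤ d)
    (h : ∀ Q' : ℕ, Q' ≤ Q → primSum Q' G ≤ a + b * Q' + c * Q' ^ 2 + d * Q' ^ 3) :
    primSum Q (fun q χ => if q ≤ Q0 then 0 else G q χ / q.totient) ≤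
      100 * Real.log (Q + 2) ^ 2 * (a / Q0 + b + c * Q + d * Q ^ 2) := by
  set B : ℝ := a / Q0 + b + c * Q + d * Q ^ 2 with hB
  have hB0 : 0 ≤ B := by positivity
  have hQn : (0:ℝ) ≤ Q := Nat.cast_nonneg _
  have hlog : 0 ≤ Real.log ((Q:ℝ) + 2) := Real.log_nonneg (by linarith)
  have main : ∀ n Q' : ℕ, Q' < 2 ^ n → Q' ≤ Q →
      primSum Q' (fun q χ => if q ≤ Q0 then 0 else G q χ / q.totient) ≤
        n * (6 * Real.log (Q + 2) * B) := by
    intro n
    induction n with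
    | zero =>
      intro Q' h1 _
      have : Q' = 0 := by simpa using h1
      subst this
      simp [primSum]
    | succ n ih =>
      intro Q' h1 h2
      have h3 := dyad_step Q Q0 hQ0 G hG a b c d ha hb hc hd h Q' h2
      have h4 := ih (Q' / 2) (by rw [pow_succ] at h1; omega) ((Nat.div_le_self _ _).trans h2)
      push_cast
      linarith
  rcases Nat.eq_zero_or_pos Q with hQ | hQ
  · subst hQ
    simp only [primSum, Finset.range_zero, Finset.sum_empty]
    positivity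
  · have h1 := main (Nat.log 2 Q + 1) Q (Nat.lt_pow_succ_log_self (by norm_num) Q) le_rfl
    have hl2 : 1 ≤ Real.log ((Q:ℝ) + 2) := by
      rw [Real.le_log_iff_exp_le (by positivity)]
      have h2 := Real.exp_one_lt_d9
      have h3 : (1:ℝ) ≤ Q := by exact_mod_cast hQ
      linarith
    have hlg : (Nat.log 2 Q : ℝ) ≤ 2 * Real.log ((Q:ℝ) + 2) := by
      have h2 : (2:ℝ) ^ (Nat.log 2 Q) ≤ Q := by exact_mod_cast Nat.pow_log_le_self 2 hQ.ne'
      have h3 : (Nat.log 2 Q : ℝ) * Real.log 2 ≤ Real.log ((Q:ℝ) + 2) := by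
        rw [← Real.log_pow]
        apply Real.log_le_log (by positivity)
        linarith
      have h4 := Real.log_two_gt_d9
      have h5 : (0:ℝ) ≤ (Nat.log 2 Q : ℝ) := Nat.cast_nonneg _
      nlinarith
    refine h1.trans ?_
    push_cast
    have h6 : ((Nat.log 2 Q : ℝ) + 1) ≤ 3 * Real.log ((Q:ℝ) + 2) := by linarith
    calc ((Nat.log 2 Q : ℝ) + 1) * (6 * Real.log (Q + 2) * B)
        ≤ (3 * Real.log ((Q:ℝ) + 2)) * (6 * Real.log (Q + 2) * B) :=
          mul_le_mul_of_nonneg_right h6 (by positivity)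
      _ = 18 * Real.log (Q + 2) ^ 2 * B := by ring
      _ ≤ 100 * Real.log (Q + 2) ^ 2 * B := by
          have : 0 ≤ Real.log ((Q:ℝ) + 2) ^ 2 * B := by positivity
          nlinarith

end Pool.Agent.BVH
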