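import Pool.Agent.Lib.BV.Defs
import Pool.Agent.Lib.HLT.Defs

/-!
MODULE BVH.Gauss (1.5 h).  From additive to multiplicative characters.

PROOF of `prim_sum_le`.  Write S b = ∑_{n ∈ s} a n e(n b / q).  For a primitive character χ modulo q and
every integer n, ∑_{b mod q} χ⁻¹(b) e(n b / q) = χ(n) τ with τ = ∑_b χ⁻¹(b) e(b/q) (Mathlib:
`gaussSum_mulShift_of_isPrimitive` for the primitive character χ⁻¹ and the additive character
`ZMod.stdAddChar` or `ZMod.toCircle`; for units n it is the substitution b ↦ b n, for the other n it is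
where primitivity is used).  Parseval on ZMod q for b ↦ χ⁻¹(b) gives
∑_n |χ(n) τ|² = q ∑_b |χ⁻¹(b)|² = q φ(q), and the left side is φ(q) |τ|², hence |τ|² = q.
(If q = 1 everything is trivial.)  So τ ∑_n a n χ(n) = ∑_b χ⁻¹(b) S b and
‖∑_n a n χ(n)‖² = (1/q) ‖∑_b χ⁻¹(b) S b‖².  Drop primitivity and sum over all χ modulo q: by
orthogonality of the characters (`DirichletCharacter.sum_char_inv_mul_char_eq` or the version used in
Pool/Agent/Lib/BV/Assemble.lean, `totient_mul_RSap`)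
∑_χ ‖∑_b χ⁻¹(b) S b‖² = φ(q) ∑_{b unit} ‖S b‖², and φ(q) ≤ q.
-/

set_option autoImplicit false

namespace Pool.Agent.BVH

open Pool.Agent.Lib.BV Pool.Agent.HLT

namespace GaussAux

variable {q : ℕ} [NeZero q]

/-- the additive character `e(z / q)` -/
noncomputable def ee : AddChar (ZMod q) ℂ := ZMod.stdAddChar

lemma ee_prim : (ee (q := q)).IsPrimitive := ZMod.isPrimitive_stdAddChar q

lemma ee_mul (n b : ℕ) : ee ((n : ZMod q) * (b : ZMod q)) = ex (n * ((b : ℝ) / q)) := by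
  have h := ZMod.stdAddChar_coe (N := q) ((n : ℤ) * (b : ℤ))
  have h1 : ((((n : ℤ) * (b : ℤ) : ℤ)) : ZMod q) = (n : ZMod q) * (b : ZMod q) := by push_cast; ring
  rw [h1] at h
  unfold ee
  rw [h]
  unfold ex
  congr 1
  push_cast
  ring

lemma conj_ee (z : ZMod q) : (starRingEnd ℂ) (ee z) = ee (-z) := by
  unfold ee
  rw [ZMod.stdAddChar_apply, ZMod.stdAddChar_apply, AddChar.map_neg_eq_inv, Circle.coe_inv_eq_conj]

lemma sum_ee (z : ZMod q) : ∑ n : ZMod q, ee (n * z) = if z = 0 then (q : ℂ) else 0 := by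
  have h := AddChar.sum_mulShift z (ee_prim (q := q))
  rw [h]
  simp

/-- Parseval on `ZMod q` -/
lemma parseval (f : ZMod q → ℂ) :
    ∑ n : ZMod q, ‖∑ b : ZMod q, f b * ee (n * b)‖ ^ 2 = q * ∑ b : ZMod q, ‖f b‖ ^ 2 := by
  have h : ((∑ n : ZMod q, ‖∑ b : ZMod q, f b * ee (n * b)‖ ^ 2 : ℝ) : ℂ) =
      ((q * ∑ b : ZMod q, ‖f b‖ ^ 2 : ℝ) : ℂ) := by
    push_cast
    have h1 : ∀ n : ZMod q, ((‖∑ b : ZMod q, f b * ee (n * b)‖ : ℝ) : ℂ) ^ 2 =
        ∑ b : ZMod q, ∑ c : ZMod q, (f b * (starRingEnd ℂ) (f c)) * ee (n * (b - c)) := by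
      intro n
      rw [← Complex.mul_conj', map_sum, Finset.sum_mul_sum]
      refine Finset.sum_congr rfl fun b _ => Finset.sum_congr rfl fun c _ => ?_
      rw [(starRingEnd ℂ).map_mul, conj_ee, mul_sub, sub_eq_add_neg, AddChar.map_add_eq_mul]
      ring
    simp_rw [h1]
    rw [Finset.sum_comm]
    rw [Finset.mul_sum]
    refine Finset.sum_congr rfl fun b _ => ?_
    rw [Finset.sum_comm]
    have h2 : ∀ c : ZMod q, ∑ n : ZMod q, (f b * (starRingEnd ℂ) (f c)) * ee (n * (b - c)) =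
        if b = c then (f b * (starRingEnd ℂ) (f c)) * q else 0 := by
      intro c
      rw [← Finset.mul_sum, sum_ee]
      by_cases hbc : b = c
      · simp [hbc]
      · rw [if_neg (sub_ne_zero.2 hbc), if_neg hbc, mul_zero]
    rw [Finset.sum_congr rfl fun c _ => h2 c, Finset.sum_ite_eq]
    simp only [Finset.mem_univ, if_true]
    rw [Complex.mul_conj', mul_comm]
  exact_mod_cast h

omit [NeZero q] in
lemma conj_char (χ : DirichletCharacter ℂ q) (z : ZMod q) : (starRingEnd ℂ) (χ z) = χ⁻¹ z :=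
  MulChar.star_apply' χ z

omit [NeZero q] in
lemma inv_char (χ : DirichletCharacter ℂ q) {z : ZMod q} (hz : IsUnit z) : χ⁻¹ z = χ z⁻¹ := by
  have h1 : χ⁻¹ z * χ z = 1 := by
    rw [← MulChar.mul_apply, inv_mul_cancel, MulChar.one_apply hz]
  have h2 : χ z⁻¹ * χ z = 1 := by
    rw [← map_mul, ZMod.inv_mul_of_unit z hz, map_one]
  have h3 : χ z ≠ 0 := right_ne_zero_of_mul_eq_one h1
  exact mul_right_cancel₀ h3 (h1.trans h2.symm)

lemma gauss_norm {χ : DirichletCharacter ℂ q} (hχ : χ.IsPrimitive) :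
    ‖gaussSum χ⁻¹ (ee (q := q))‖ ^ 2 = q := by
  have hχ' : (χ⁻¹).IsPrimitive := by
    rw [DirichletCharacter.isPrimitive_def, DirichletCharacter.conductor_inv]
    exact hχ
  have h1 : ∀ n : ZMod q, ∑ b : ZMod q, χ⁻¹ b * ee (n * b) = χ n * gaussSum χ⁻¹ (ee (q := q)) := by
    intro n
    have := gaussSum_mulShift_of_isPrimitive (ee (q := q)) hχ' n
    rw [inv_inv] at this
    rw [← this]
    rfl
  have h2 := parseval (q := q) (fun b => χ⁻¹ b)
  simp only [h1] at h2
  have h3 : ∀ n : ZMod q, ‖χ n * gaussSum χ⁻¹ (ee (q := q))‖ ^ 2 =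
      ‖χ⁻¹ n‖ ^ 2 * ‖gaussSum χ⁻¹ (ee (q := q))‖ ^ 2 := by
    intro n
    rw [norm_mul, mul_pow, ← conj_char, RCLike.norm_conj]
  rw [Finset.sum_congr rfl fun n _ => h3 n, ← Finset.sum_mul, mul_comm] at h2
  have h4 : 0 < ∑ n : ZMod q, ‖χ⁻¹ n‖ ^ 2 := by
    have h5 : ‖χ⁻¹ (1 : ZMod q)‖ ^ 2 ≤ ∑ n : ZMod q, ‖χ⁻¹ n‖ ^ 2 :=
      Finset.single_le_sum (f := fun n : ZMod q => ‖χ⁻¹ n‖ ^ 2) (fun n _ => by positivity)
        (Finset.mem_univ _)
    rw [map_one] at h5
    norm_num at h5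
    linarith
  exact mul_right_cancel₀ h4.ne' h2

lemma ortho (T : ZMod q → ℂ) :
    ∑ χ : DirichletCharacter ℂ q, ‖∑ b : ZMod q, χ⁻¹ b * T b‖ ^ 2 =
      (q.totient : ℝ) * ∑ b : ZMod q, (open scoped Classical in if IsUnit b then ‖T b‖ ^ 2 else 0) := by
  classical
  have h : ((∑ χ : DirichletCharacter ℂ q, ‖∑ b : ZMod q, χ⁻¹ b * T b‖ ^ 2 : ℝ) : ℂ) =
      (((q.totient : ℝ) * ∑ b : ZMod q, (if IsUnit b then ‖T b‖ ^ 2 else 0) : ℝ) : ℂ) := by
    push_cast
    have h1 : ∀ χ : DirichletCharacter ℂ q, ((‖∑ b : ZMod q, χ⁻¹ b * T b‖ : ℝ) : ℂ) ^ 2 =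
        ∑ b : ZMod q, ∑ c : ZMod q, (T b * (starRingEnd ℂ) (T c)) * (χ⁻¹ b * χ c) := by
      intro χ
      rw [← Complex.mul_conj', map_sum, Finset.sum_mul_sum]
      refine Finset.sum_congr rfl fun b _ => Finset.sum_congr rfl fun c _ => ?_
      rw [map_mul, conj_char, inv_inv]
      ring
    simp_rw [h1]
    rw [Finset.sum_comm, Finset.mul_sum]
    refine Finset.sum_congr rfl fun b _ => ?_
    rw [Finset.sum_comm]
    by_cases hb : IsUnit b
    · have h2 : ∀ c : ZMod q, ∑ χ : DirichletCharacter ℂ q,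
          (T b * (starRingEnd ℂ) (T c)) * (χ⁻¹ b * χ c) =
          if b = c then (T b * (starRingEnd ℂ) (T c)) * q.totient else 0 := by
        intro c
        rw [← Finset.mul_sum]
        simp_rw [fun χ : DirichletCharacter ℂ q => inv_char χ hb]
        rw [DirichletCharacter.sum_char_inv_mul_char_eq ℂ hb]
        split_ifs <;> simp
      rw [Finset.sum_congr rfl fun c _ => h2 c, Finset.sum_ite_eq]
      simp only [Finset.mem_univ, if_true, hb]
      rw [Complex.mul_conj', mul_comm]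
      push_cast
      ring
    · rw [if_neg hb, Complex.ofReal_zero, mul_zero]
      refine Finset.sum_eq_zero fun c _ => Finset.sum_eq_zero fun χ _ => ?_
      rw [MulChar.map_nonunit _ hb]
      ring
  exact_mod_cast h

lemma sum_units (g : ZMod q → ℝ) :
    ∑ b : ZMod q, (open scoped Classical in if IsUnit b then g b else 0) =
      ∑ b ∈ (Finset.range q).filter (fun b => Nat.Coprime b q), g (b : ZMod q) := by
  classical
  rw [← Finset.sum_filter]
  refine (Finset.sum_nbij' (fun b : ℕ => (b : ZMod q)) (fun z : ZMod q => z.val) ?_ ?_ ?_ ?_ ?_).symm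
  · intro b hb
    simp only [Finset.mem_filter, Finset.mem_range, Finset.mem_univ, true_and] at hb ⊢
    exact (ZMod.isUnit_iff_coprime b q).2 hb.2
  · intro z hz
    simp only [Finset.mem_filter, Finset.mem_range, Finset.mem_univ, true_and] at hz ⊢
    refine ⟨ZMod.val_lt z, ?_⟩
    rw [← ZMod.isUnit_iff_coprime, ZMod.natCast_zmod_val]
    exact hz
  · intro b hb
    simp only [Finset.mem_filter, Finset.mem_range] at hb
    exact ZMod.val_cast_of_lt hb.1
  · intro z _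
    exact ZMod.natCast_zmod_val z
  · intro b _
    rfl

end GaussAux

open GaussAux

open scoped Classical in
theorem prim_sum_le (q : ℕ) [NeZero q] (s : Finset ℕ) (a : ℕ → ℂ) :
    ∑ χ : DirichletCharacter ℂ q,
        (if χ.IsPrimitive then ‖∑ n ∈ s, a n * χ (n : ZMod q)‖ ^ 2 else 0) ≤
      ∑ b ∈ (Finset.range q).filter (fun b => Nat.Coprime b q),
        ‖∑ n ∈ s, a n * ex (n * ((b : ℝ) / q))‖ ^ 2 := by
  set S : ZMod q → ℂ := fun z => ∑ n ∈ s, a n * ee ((n : ZMod q) * z) with hS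
  have hq : (0 : ℝ) < q := by exact_mod_cast Nat.pos_of_ne_zero (NeZero.ne q)
  have h1 : ∀ χ : DirichletCharacter ℂ q,
      (q : ℝ) * (if χ.IsPrimitive then ‖∑ n ∈ s, a n * χ (n : ZMod q)‖ ^ 2 else 0) ≤
        ‖∑ b : ZMod q, χ⁻¹ b * S b‖ ^ 2 := by
    intro χ
    by_cases hχ : χ.IsPrimitive
    · rw [if_pos hχ]
      have hχ' : (χ⁻¹).IsPrimitive := by
        rw [DirichletCharacter.isPrimitive_def, DirichletCharacter.conductor_inv]
        exact hχ
      have h2 : ∑ b : ZMod q, χ⁻¹ b * S b =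
          gaussSum χ⁻¹ (ee (q := q)) * ∑ n ∈ s, a n * χ (n : ZMod q) := by
        rw [hS]
        simp only [Finset.mul_sum]
        rw [Finset.sum_comm]
        refine Finset.sum_congr rfl fun n _ => ?_
        have h3 := gaussSum_mulShift_of_isPrimitive (ee (q := q)) hχ' (n : ZMod q)
        rw [inv_inv] at h3
        have h4 : ∑ b : ZMod q, χ⁻¹ b * ee ((n : ZMod q) * b) =
            χ (n : ZMod q) * gaussSum χ⁻¹ (ee (q := q)) := by
          rw [← h3]
          rfl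
        calc ∑ b : ZMod q, χ⁻¹ b * (a n * ee ((n : ZMod q) * b))
            = a n * ∑ b : ZMod q, χ⁻¹ b * ee ((n : ZMod q) * b) := by
              rw [Finset.mul_sum]
              refine Finset.sum_congr rfl fun b _ => ?_
              ring
          _ = gaussSum χ⁻¹ (ee (q := q)) * (a n * χ (n : ZMod q)) := by
              rw [h4]
              ring
      rw [h2, norm_mul, mul_pow, gauss_norm hχ]
    · rw [if_neg hχ, mul_zero]
      positivity
  have h2 := Finset.sum_le_sum fun (χ : DirichletCharacter ℂ q) (_ : χ ∈ Finset.univ) => h1 χ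
  rw [← Finset.mul_sum, ortho, sum_units] at h2
  have h3 : ∑ b ∈ (Finset.range q).filter (fun b => Nat.Coprime b q), ‖S (b : ZMod q)‖ ^ 2 =
      ∑ b ∈ (Finset.range q).filter (fun b => Nat.Coprime b q),
        ‖∑ n ∈ s, a n * ex (n * ((b : ℝ) / q))‖ ^ 2 := by
    refine Finset.sum_congr rfl fun b _ => ?_
    rw [hS]
    simp only [ee_mul]
  rw [h3] at h2
  have h4 : (q.totient : ℝ) ≤ q := by exact_mod_cast Nat.totient_le q
  have h5 : (0 : ℝ) ≤ ∑ b ∈ (Finset.range q).filter (fun b => Nat.Coprime b q),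
        ‖∑ n ∈ s, a n * ex (n * ((b : ℝ) / q))‖ ^ 2 :=
    Finset.sum_nonneg fun b _ => by positivity
  exact le_of_mul_le_mul_left (h2.trans (mul_le_mul_of_nonneg_right h4 h5)) hq

end Pool.Agent.BVH
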