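import Pool.Agent.Lib.BV.LargeSieve
import Pool.Agent.Lib.HLT.Geom

/-!
# The large sieve for separated points

The same proof as in Lib/VK/SepSieve.lean, without the definitions for short shifts, so that the
Bombieri-Vinogradov theorem does not depend on the exponential sum files.
-/

set_option autoImplicit false

open Finset Filter

namespace Pool.Agent.BVH

open Pool.Agent.HLT

/-- `1/H`-separated modulo one. -/
def Sep (H : ℕ) (Θ : Finset ℝ) : Prop := ∀ θ ∈ Θ, ∀ θ' ∈ Θ, θ ≠ θ' → 1 / (H : ℝ) ≤ nrm (θ - θ')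

private lemma nrm_sq_le_int (α : ℝ) (m : ℤ) : nrm α ≤ |α - m| := by
  unfold nrm
  exact round_le α m

private lemma ss_norm_sq_bound (N2 : ℕ) (H : ℕ) (hH : 1 ≤ H) (α : ℝ) :
    ‖∑ n ∈ Icc 1 N2, ex (n * α)‖ ^ 2 ≤
      (if ⌊(H : ℝ) * nrm α⌋₊ = 0 then (N2 : ℝ) ^ 2 else
        (H : ℝ) ^ 2 / 4 * (((⌊(H : ℝ) * nrm α⌋₊ : ℕ) : ℝ) ^ 2)⁻¹) := by
  have h1 := geom N2 α
  have hH0 : (0 : ℝ) < H := by exact_mod_cast hH
  split_ifs with h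
  · have h2 := h1.trans (mn_le_left (Nat.cast_nonneg N2) α)
    exact pow_le_pow_left₀ (norm_nonneg _) h2 2
  · have hj : 1 ≤ ⌊(H : ℝ) * nrm α⌋₊ := Nat.one_le_iff_ne_zero.2 h
    have hj0 : (0 : ℝ) < ((⌊(H : ℝ) * nrm α⌋₊ : ℕ) : ℝ) := by exact_mod_cast hj
    have hn0 := nrm_nonneg α
    have h3 : ((⌊(H : ℝ) * nrm α⌋₊ : ℕ) : ℝ) ≤ (H : ℝ) * nrm α :=
      Nat.floor_le (by positivity)
    have hpos : 0 < nrm α := by
      by_contra hcon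
      push Not at hcon
      have h4 : nrm α = 0 := le_antisymm hcon hn0
      rw [h4, mul_zero] at h3
      rw [h4, mul_zero] at hj0
      linarith
    have h2 := h1.trans (mn_le_right (Nat.cast_nonneg N2) hpos)
    have h5 : 1 / (2 * nrm α) ≤ H / 2 * (((⌊(H : ℝ) * nrm α⌋₊ : ℕ) : ℝ))⁻¹ := by
      rw [div_mul_eq_mul_div, ← div_eq_mul_inv, div_div, div_le_div_iff₀ (by positivity)
        (by positivity)]
      nlinarith only [h3]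
    calc ‖∑ n ∈ Icc 1 N2, ex (n * α)‖ ^ 2 ≤
        (H / 2 * (((⌊(H : ℝ) * nrm α⌋₊ : ℕ) : ℝ))⁻¹) ^ 2 :=
          pow_le_pow_left₀ (norm_nonneg _) (h2.trans h5) 2
      _ = _ := by rw [mul_pow, div_pow, inv_pow]; norm_num

private lemma ss_half (N2 H : ℕ) (hH : 1 ≤ H) (Θ : Finset ℝ) (hinj : ∀ a ∈ Θ, ∀ b ∈ Θ,
    ⌊(H : ℝ) * nrm a⌋₊ = ⌊(H : ℝ) * nrm b⌋₊ → a = b) :
    ∑ α ∈ Θ, ‖∑ n ∈ Icc 1 N2, ex (n * α)‖ ^ 2 ≤ (N2 : ℝ) ^ 2 + (H : ℝ) ^ 2 / 2 := by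
  classical
  set w : ℕ → ℝ := fun j => if j = 0 then (N2 : ℝ) ^ 2 else
    (H : ℝ) ^ 2 / 4 * ((j : ℝ) ^ 2)⁻¹ with hw
  have hw0 : ∀ j, 0 ≤ w j := by
    intro j
    simp only [hw]
    split_ifs <;> positivity
  have h1 : ∑ α ∈ Θ, ‖∑ n ∈ Icc 1 N2, ex (n * α)‖ ^ 2 ≤ ∑ α ∈ Θ, w ⌊(H : ℝ) * nrm α⌋₊ :=
    Finset.sum_le_sum fun α _ => ss_norm_sq_bound N2 H hH α
  have h2 : ∑ α ∈ Θ, w ⌊(H : ℝ) * nrm α⌋₊ =
      ∑ j ∈ Θ.image (fun α => ⌊(H : ℝ) * nrm α⌋₊), w j := by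
    rw [Finset.sum_image]
    intro a ha b hb hab
    exact hinj a ha b hb hab
  have h3 : Θ.image (fun α => ⌊(H : ℝ) * nrm α⌋₊) ⊆ range (H + 1) := by
    intro j hj
    rw [Finset.mem_image] at hj
    obtain ⟨α, _, rfl⟩ := hj
    rw [Finset.mem_range]
    have h4 : (H : ℝ) * nrm α ≤ H := by
      have := nrm_le_half α
      have := nrm_nonneg α
      have hH0 : (0 : ℝ) ≤ H := Nat.cast_nonneg _
      nlinarith
    have h5 : ⌊(H : ℝ) * nrm α⌋₊ ≤ H := by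
      have := Nat.floor_le_floor h4
      rwa [Nat.floor_natCast] at this
    omega
  have h4 : ∑ j ∈ range (H + 1), w j ≤ (N2 : ℝ) ^ 2 + (H : ℝ) ^ 2 / 2 := by
    rw [Finset.sum_range_succ']
    have h5 : w 0 = (N2 : ℝ) ^ 2 := by simp [hw]
    have h6 : ∑ j ∈ range H, w (j + 1) ≤ (H : ℝ) ^ 2 / 4 * 2 := by
      have h7 : ∀ j ∈ range H, w (j + 1) = (H : ℝ) ^ 2 / 4 * (((j + 1 : ℕ) : ℝ) ^ 2)⁻¹ := by
        intro j _
        simp only [hw]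
        rw [if_neg (Nat.succ_ne_zero j)]
      rw [Finset.sum_congr rfl h7, ← Finset.mul_sum]
      apply mul_le_mul_of_nonneg_left _ (by positivity)
      have h8 := sum_Ioo_inv_sq_le (α := ℝ) 0 (H + 1)
      have h9 : ∑ j ∈ range H, (((j + 1 : ℕ) : ℝ) ^ 2)⁻¹ = ∑ i ∈ Ioo 0 (H + 1), ((i : ℝ) ^ 2)⁻¹ := by
        rw [Finset.range_eq_Ico, Finset.sum_Ico_add' (fun i : ℕ => ((i : ℝ) ^ 2)⁻¹) 0 H 1]
        apply Finset.sum_congr _ (fun _ _ => rfl)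
        ext i
        simp only [Finset.mem_Ico, Finset.mem_Ioo]
        omega
      rw [h9]
      refine h8.trans (le_of_eq ?_)
      norm_num
    rw [h5]
    linarith
  calc ∑ α ∈ Θ, ‖∑ n ∈ Icc 1 N2, ex (n * α)‖ ^ 2 ≤ ∑ α ∈ Θ, w ⌊(H : ℝ) * nrm α⌋₊ := h1
    _ = ∑ j ∈ Θ.image (fun α => ⌊(H : ℝ) * nrm α⌋₊), w j := h2
    _ ≤ ∑ j ∈ range (H + 1), w j :=
        Finset.sum_le_sum_of_subset_of_nonneg h3 fun j _ _ => hw0 j
    _ ≤ _ := h4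

private lemma ss_inj (H : ℕ) (hH : 1 ≤ H) (Θ : Finset ℝ) (hΘ : Sep H Θ) (θ0 : ℝ) {θ θ' : ℝ}
    (h : θ ∈ Θ) (h' : θ' ∈ Θ)
    (hs : 0 ≤ ((θ0 - θ) - round (θ0 - θ)) * ((θ0 - θ') - round (θ0 - θ')))
    (hf : ⌊(H : ℝ) * nrm (θ0 - θ)⌋₊ = ⌊(H : ℝ) * nrm (θ0 - θ')⌋₊) : θ = θ' := by
  by_contra hne
  have h1 := hΘ θ h θ' h' hne
  have hH0 : (0 : ℝ) < H := by exact_mod_cast hH
  set u := (θ0 - θ) - round (θ0 - θ) with hu
  set u' := (θ0 - θ') - round (θ0 - θ') with hu'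
  have e1 : nrm (θ0 - θ) = |u| := rfl
  have e2 : nrm (θ0 - θ') = |u'| := rfl
  rw [e1, e2] at hf
  have h2 : abs ((H : ℝ) * abs u - (H : ℝ) * abs u') < 1 := by
    have f1 := Nat.floor_le (a := (H : ℝ) * |u|) (by positivity)
    have f2 := Nat.lt_floor_add_one ((H : ℝ) * |u|)
    have f3 := Nat.floor_le (a := (H : ℝ) * |u'|) (by positivity)
    have f4 := Nat.lt_floor_add_one ((H : ℝ) * |u'|)
    rw [hf] at f1 f2
    rw [abs_lt]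
    constructor <;> linarith only [f1, f4, f2, f3]
  have h3 : abs (abs u - abs u') = abs (u' - u) := by
    rcases abs_cases u with ⟨a1, a2⟩ | ⟨a1, a2⟩ <;> rcases abs_cases u' with ⟨b1, b2⟩ | ⟨b1, b2⟩
    · rw [a1, b1, abs_sub_comm]
    · have : u = 0 := by nlinarith only [hs, a2, b2]
      rw [a1, b1, this]
      simp
    · have : u' = 0 := by nlinarith only [hs, a2, b2]
      rw [a1, b1, this]
      simp
    · rw [a1, b1]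
      congr 1
      ring
  have h4 : (H : ℝ) * |u' - u| < 1 := by
    rw [← mul_sub, abs_mul, abs_of_pos hH0, h3] at h2
    exact h2
  have h5 : nrm (θ - θ') ≤ |u' - u| := by
    have h6 := nrm_sq_le_int (θ - θ') (round (θ0 - θ') - round (θ0 - θ))
    have h7 : θ - θ' - ((round (θ0 - θ') - round (θ0 - θ) : ℤ) : ℝ) = u' - u := by
      rw [hu, hu']
      push_cast
      ring
    rwa [h7] at h6
  have h8 : 1 ≤ (H : ℝ) * |u' - u| := by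
    rw [div_le_iff₀ hH0] at h1
    nlinarith only [h1, h4, h5]
  linarith only [h4, h8]

private lemma ss_col (N2 H : ℕ) (hH : 1 ≤ H) (Θ : Finset ℝ) (hΘ : Sep H Θ) (θ0 : ℝ) :
    ∑ θ ∈ Θ, ‖∑ n ∈ Icc 1 N2, ex (n * (θ0 - θ))‖ ^ 2 ≤ 2 * (N2 : ℝ) ^ 2 + (H : ℝ) ^ 2 := by
  classical
  set P : ℝ → Prop := fun θ => 0 ≤ (θ0 - θ) - round (θ0 - θ) with hP
  have key : ∀ Θ' : Finset ℝ, Θ' ⊆ Θ → (∀ θ ∈ Θ', ∀ θ' ∈ Θ',
      0 ≤ ((θ0 - θ) - round (θ0 - θ)) * ((θ0 - θ') - round (θ0 - θ'))) →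
      ∑ θ ∈ Θ', ‖∑ n ∈ Icc 1 N2, ex (n * (θ0 - θ))‖ ^ 2 ≤ (N2 : ℝ) ^ 2 + (H : ℝ) ^ 2 / 2 := by
    intro Θ' hsub hsg
    have h1 := ss_half N2 H hH (Θ'.image (fun θ => θ0 - θ)) (by
      intro a ha b hb hab
      rw [Finset.mem_image] at ha hb
      obtain ⟨θ, hθ, rfl⟩ := ha
      obtain ⟨θ', hθ', rfl⟩ := hb
      rw [ss_inj H hH Θ hΘ θ0 (hsub hθ) (hsub hθ') (hsg θ hθ θ' hθ') hab])
    rw [Finset.sum_image (by
      intro a _ b _ hab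
      simp only at hab
      linarith)] at h1
    exact h1
  rw [← Finset.sum_filter_add_sum_filter_not Θ P]
  have h1 := key (Θ.filter P) (Finset.filter_subset _ _) (by
    intro θ hθ θ' hθ'
    exact mul_nonneg (Finset.mem_filter.1 hθ).2 (Finset.mem_filter.1 hθ').2)
  have h2 := key (Θ.filter (fun θ => ¬ P θ)) (Finset.filter_subset _ _) (by
    intro θ hθ θ' hθ'
    have a1 := (Finset.mem_filter.1 hθ).2
    have a2 := (Finset.mem_filter.1 hθ').2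
    simp only [hP, not_le] at a1 a2
    exact (mul_pos_of_neg_of_neg a1 a2).le)
  linarith

private lemma ss_dual (M H : ℕ) (Θ : Finset ℝ) (hH : 1 ≤ H) (hΘ : Sep H Θ) (c : ℝ → ℂ) :
    ∑ n ∈ range (M + 1), ‖∑ θ ∈ Θ, c θ * ex (n * θ)‖ ^ 2 ≤
      9 * ((M : ℝ) + 1 + H) * ∑ θ ∈ Θ, ‖c θ‖ ^ 2 := by
  set N : ℕ := M + 1 + H with hN
  have hN0 : (0 : ℝ) < N := by
    have : 0 < N := by omega
    exact_mod_cast this
  set D : ℝ → ℂ := fun α => ∑ j ∈ Icc 1 (2 * N), ex (j * α) with hD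
  set g : ℕ → ℕ → ℂ := fun j k => ∑ θ ∈ Θ, c θ * (ex (j * θ) * ex (-(k * θ))) with hg
  -- the double sum
  have h1 : ((∑ k ∈ Icc 1 (2 * N), ∑ j ∈ Icc 1 (2 * N), ‖g j k‖ ^ 2 : ℝ) : ℂ) =
      ∑ θ ∈ Θ, ∑ θ' ∈ Θ, c θ * (starRingEnd ℂ) (c θ') *
        (D (θ - θ') * (starRingEnd ℂ) (D (θ - θ'))) := by
    push_cast
    have e1 : ∀ k ∈ Icc 1 (2 * N), ∀ j ∈ Icc 1 (2 * N), ((‖g j k‖ : ℝ) : ℂ) ^ 2 =
        ∑ θ ∈ Θ, ∑ θ' ∈ Θ, c θ * (starRingEnd ℂ) (c θ') *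
          (ex (j * (θ - θ')) * (starRingEnd ℂ) (ex (k * (θ - θ')))) := by
      intro k _ j _
      rw [← Complex.mul_conj', hg]
      simp only
      rw [map_sum, Finset.sum_mul_sum]
      refine Finset.sum_congr rfl fun θ _ => Finset.sum_congr rfl fun θ' _ => ?_
      rw [map_mul, map_mul, ← ex_neg, ← ex_neg, ← ex_neg]
      have a1 : ex ((j : ℝ) * (θ - θ')) = ex (j * θ) * ex (-(j * θ')) := by
        rw [← ex_add]; congr 1; ring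
      have a2 : ex (-((k : ℝ) * (θ - θ'))) = ex (-(k * θ)) * ex (- -(k * θ')) := by
        rw [← ex_add]; congr 1; ring
      rw [a1, a2]
      ring
    rw [Finset.sum_congr rfl fun k hk => Finset.sum_congr rfl fun j hj => e1 k hk j hj]
    have e2 : ∀ θ ∈ Θ, ∀ θ' ∈ Θ, c θ * (starRingEnd ℂ) (c θ') *
        (D (θ - θ') * (starRingEnd ℂ) (D (θ - θ'))) =
        ∑ k ∈ Icc 1 (2 * N), ∑ j ∈ Icc 1 (2 * N), c θ * (starRingEnd ℂ) (c θ') *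
          (ex (j * (θ - θ')) * (starRingEnd ℂ) (ex (k * (θ - θ')))) := by
      intro θ _ θ' _
      rw [hD]
      simp only
      rw [map_sum, Finset.sum_mul_sum, Finset.sum_comm, Finset.mul_sum]
      refine Finset.sum_congr rfl fun k _ => ?_
      rw [Finset.mul_sum]
    rw [Finset.sum_congr rfl fun θ hθ => Finset.sum_congr rfl fun θ' hθ' => e2 θ hθ θ' hθ']
    calc ∑ k ∈ Icc 1 (2 * N), ∑ j ∈ Icc 1 (2 * N), ∑ θ ∈ Θ, ∑ θ' ∈ Θ,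
          c θ * (starRingEnd ℂ) (c θ') *
            (ex (j * (θ - θ')) * (starRingEnd ℂ) (ex (k * (θ - θ'))))
        = ∑ k ∈ Icc 1 (2 * N), ∑ θ ∈ Θ, ∑ j ∈ Icc 1 (2 * N), ∑ θ' ∈ Θ,
          c θ * (starRingEnd ℂ) (c θ') *
            (ex (j * (θ - θ')) * (starRingEnd ℂ) (ex (k * (θ - θ')))) :=
          Finset.sum_congr rfl fun k _ => Finset.sum_comm
      _ = ∑ θ ∈ Θ, ∑ k ∈ Icc 1 (2 * N), ∑ j ∈ Icc 1 (2 * N), ∑ θ' ∈ Θ,
          c θ * (starRingEnd ℂ) (c θ') *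
            (ex (j * (θ - θ')) * (starRingEnd ℂ) (ex (k * (θ - θ')))) := Finset.sum_comm
      _ = ∑ θ ∈ Θ, ∑ k ∈ Icc 1 (2 * N), ∑ θ' ∈ Θ, ∑ j ∈ Icc 1 (2 * N),
          c θ * (starRingEnd ℂ) (c θ') *
            (ex (j * (θ - θ')) * (starRingEnd ℂ) (ex (k * (θ - θ')))) :=
          Finset.sum_congr rfl fun θ _ => Finset.sum_congr rfl fun k _ => Finset.sum_comm
      _ = _ := Finset.sum_congr rfl fun θ _ => Finset.sum_comm
  have h2 : ∑ k ∈ Icc 1 (2 * N), ∑ j ∈ Icc 1 (2 * N), ‖g j k‖ ^ 2 ≤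
      9 * (N : ℝ) ^ 2 * ∑ θ ∈ Θ, ‖c θ‖ ^ 2 := by
    have hnn : 0 ≤ ∑ k ∈ Icc 1 (2 * N), ∑ j ∈ Icc 1 (2 * N), ‖g j k‖ ^ 2 :=
      Finset.sum_nonneg fun _ _ => Finset.sum_nonneg fun _ _ => by positivity
    have e1 : ∑ k ∈ Icc 1 (2 * N), ∑ j ∈ Icc 1 (2 * N), ‖g j k‖ ^ 2 =
        ‖((∑ k ∈ Icc 1 (2 * N), ∑ j ∈ Icc 1 (2 * N), ‖g j k‖ ^ 2 : ℝ) : ℂ)‖ := by
      rw [Complex.norm_real, Real.norm_of_nonneg hnn]
    have e2 : ∑ k ∈ Icc 1 (2 * N), ∑ j ∈ Icc 1 (2 * N), ‖g j k‖ ^ 2 ≤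
        ∑ θ ∈ Θ, ∑ θ' ∈ Θ, ‖c θ‖ * ‖c θ'‖ * ‖D (θ - θ')‖ ^ 2 := by
      rw [e1, h1]
      refine (norm_sum_le _ _).trans (Finset.sum_le_sum fun θ _ => ?_)
      refine (norm_sum_le _ _).trans (Finset.sum_le_sum fun θ' _ => ?_)
      rw [norm_mul, norm_mul, norm_mul, Complex.norm_conj, Complex.norm_conj]
      exact le_of_eq (by ring)
    have hDsymm : ∀ α, ‖D (-α)‖ = ‖D α‖ := by
      intro α
      have : D (-α) = (starRingEnd ℂ) (D α) := by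
        rw [hD]
        simp only
        rw [map_sum]
        refine Finset.sum_congr rfl fun j _ => ?_
        rw [← ex_neg]
        congr 1
        ring
      rw [this, Complex.norm_conj]
    have hcol : ∀ θ0, ∑ θ ∈ Θ, ‖D (θ0 - θ)‖ ^ 2 ≤ 9 * (N : ℝ) ^ 2 := by
      intro θ0
      have h3 := ss_col (2 * N) H hH Θ hΘ θ0
      have h4 : (H : ℝ) ≤ N := by
        have : H ≤ N := by omega
        exact_mod_cast this
      have h5 : (0 : ℝ) ≤ H := Nat.cast_nonneg _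
      refine h3.trans ?_
      push_cast
      nlinarith only [h4]
    have e3 : ∀ θ ∈ Θ, ∀ θ' ∈ Θ, ‖c θ‖ * ‖c θ'‖ * ‖D (θ - θ')‖ ^ 2 ≤
        ‖c θ‖ ^ 2 / 2 * ‖D (θ - θ')‖ ^ 2 + ‖c θ'‖ ^ 2 / 2 * ‖D (θ' - θ)‖ ^ 2 := by
      intro θ _ θ' _
      have h3 : ‖D (θ' - θ)‖ = ‖D (θ - θ')‖ := by
        rw [← hDsymm (θ - θ')]
        congr 2
        ring
      rw [h3, ← add_mul]
      apply mul_le_mul_of_nonneg_right _ (by positivity)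
      nlinarith only [sq_nonneg (‖c θ‖ - ‖c θ'‖)]
    have e4 : ∑ θ ∈ Θ, ∑ θ' ∈ Θ, ‖c θ‖ * ‖c θ'‖ * ‖D (θ - θ')‖ ^ 2 ≤
        ∑ θ ∈ Θ, ‖c θ‖ ^ 2 * ∑ θ' ∈ Θ, ‖D (θ - θ')‖ ^ 2 := by
      refine (Finset.sum_le_sum fun θ hθ => Finset.sum_le_sum fun θ' hθ' => e3 θ hθ θ' hθ').trans ?_
      simp only [Finset.sum_add_distrib]
      have e5 : ∑ θ ∈ Θ, ∑ θ' ∈ Θ, ‖c θ'‖ ^ 2 / 2 * ‖D (θ' - θ)‖ ^ 2 =
          ∑ θ ∈ Θ, ∑ θ' ∈ Θ, ‖c θ‖ ^ 2 / 2 * ‖D (θ - θ')‖ ^ 2 := Finset.sum_comm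
      rw [e5, ← Finset.sum_add_distrib]
      refine le_of_eq (Finset.sum_congr rfl fun θ _ => ?_)
      rw [← Finset.mul_sum]
      ring
    refine e2.trans (e4.trans ?_)
    rw [Finset.mul_sum]
    refine Finset.sum_le_sum fun θ _ => ?_
    rw [mul_comm (9 * (N : ℝ) ^ 2)]
    exact mul_le_mul_of_nonneg_left (hcol θ) (by positivity)
  -- lower bound for the double sum
  have h3 : (N : ℝ) * ∑ n ∈ range (M + 1), ‖∑ θ ∈ Θ, c θ * ex (n * θ)‖ ^ 2 ≤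
      ∑ k ∈ Icc 1 (2 * N), ∑ j ∈ Icc 1 (2 * N), ‖g j k‖ ^ 2 := by
    have e1 : ∀ k ∈ Icc 1 N, ∑ n ∈ range (M + 1), ‖∑ θ ∈ Θ, c θ * ex (n * θ)‖ ^ 2 ≤
        ∑ j ∈ Icc 1 (2 * N), ‖g j k‖ ^ 2 := by
      intro k hk
      rw [Finset.mem_Icc] at hk
      have e2 : ∀ n ∈ range (M + 1), ‖∑ θ ∈ Θ, c θ * ex (n * θ)‖ ^ 2 = ‖g (n + k) k‖ ^ 2 := by
        intro n _
        congr 2
        rw [hg]
        simp only
        refine Finset.sum_congr rfl fun θ _ => ?_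
        rw [← ex_add]
        congr 2
        push_cast
        ring
      rw [Finset.sum_congr rfl e2,
        ← Finset.sum_image (s := range (M + 1)) (g := fun n => n + k)
          (f := fun j => ‖g j k‖ ^ 2) (by
            intro a _ b _ hab
            simp only at hab
            omega)]
      apply Finset.sum_le_sum_of_subset_of_nonneg
      · intro j hj
        rw [Finset.mem_image] at hj
        obtain ⟨n, hn, rfl⟩ := hj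
        rw [Finset.mem_range] at hn
        rw [Finset.mem_Icc]
        omega
      · intro _ _ _
        positivity
    have e3 : ∑ k ∈ Icc 1 N, ∑ n ∈ range (M + 1), ‖∑ θ ∈ Θ, c θ * ex (n * θ)‖ ^ 2 =
        (N : ℝ) * ∑ n ∈ range (M + 1), ‖∑ θ ∈ Θ, c θ * ex (n * θ)‖ ^ 2 := by
      rw [Finset.sum_const, Nat.card_Icc, Nat.add_sub_cancel, nsmul_eq_mul]
    rw [← e3]
    refine (Finset.sum_le_sum e1).trans ?_
    apply Finset.sum_le_sum_of_subset_of_nonneg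
    · intro k hk
      rw [Finset.mem_Icc] at hk ⊢
      omega
    · intro _ _ _
      exact Finset.sum_nonneg fun _ _ => by positivity
  have h4 : (N : ℝ) * ∑ n ∈ range (M + 1), ‖∑ θ ∈ Θ, c θ * ex (n * θ)‖ ^ 2 ≤
      N * (9 * (N : ℝ) * ∑ θ ∈ Θ, ‖c θ‖ ^ 2) := by
    refine (h3.trans h2).trans (le_of_eq ?_)
    ring
  have h5 := le_of_mul_le_mul_left h4 hN0
  refine h5.trans (le_of_eq ?_)
  rw [hN]
  push_cast
  ring

theorem large_sieve_sep : ∃ C : ℝ, 1 ≤ C ∧ ∀ (M H : ℕ) (Θ : Finset ℝ) (a : ℕ → ℂ), 1 ≤ H → Sep H Θ →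
    ∑ θ ∈ Θ, ‖∑ n ∈ range (M + 1), a n * ex (n * θ)‖ ^ 2 ≤ C * (M + 1 + H) * ∑ n ∈ range (M + 1), ‖a n‖ ^ 2 := by
  refine ⟨9, by norm_num, fun M H Θ a hH hΘ => ?_⟩
  have h := Pool.Agent.Lib.BV.ls_duality Θ (range (M + 1)) (fun _ => 1) (fun _ _ => zero_le_one)
    (fun θ n => ex (n * θ)) (9 * ((M : ℝ) + 1 + H)) (by positivity) (by
      intro c
      simp only [one_mul]
      exact ss_dual M H Θ hH hΘ c) a
  simp only [Complex.ofReal_one, one_mul] at h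
  exact h

end Pool.Agent.BVH
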