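import Pool.Agent.Lib.BVH.Gauss
import Pool.Agent.Lib.BVH.SepSieve

/-!
MODULE BVH.MSieve (1.2 h).  The multiplicative large sieve inequality (order N + Q^2).

PROOF of `mult_sieve`.  Q = 0: the left side is 0.  Let Q ≥ 1 and let Θ be the set of the real numbers
b/q, 1 ≤ q ≤ Q, 0 ≤ b < q, (b, q) = 1.  Different pairs (q, b) give different reals, and for two
different elements and every integer k, |b/q - b'/q' - k| = |integer ≠ 0| / (q q') ≥ 1/Q² (if the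
integer b q' - b' q - k q q' were 0, then b/q - b'/q' = k is an integer of absolute value < 1, so 0).
So `Sep (Q^2) Θ` (BVH.SepSieve; `nrm α = |α - round α|`).  By `prim_sum_le` (q+1 in place of q) the
left side is at most ∑_{θ ∈ Θ} ‖∑_{n ∈ Ioc N (N+M)} a n e(n θ)‖².  Put n = N + 1 + j, j < M: the inner
sum is e((N+1) θ) ∑_{j ∈ range (M+1)} a' j e(j θ) with a' j = a (N+1+j) for j < M and a' M = 0, so
`large_sieve_sep` (BVH.SepSieve) gives C (M + 1 + Q²) ∑ ‖a n‖² ≤ 2 C (M + Q²) ∑ ‖a n‖².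
-/

set_option autoImplicit false

namespace Pool.Agent.BVH

open Pool.Agent.Lib.BV Pool.Agent.HLT

namespace MSieveAux


theorem reind {β : Type*} [AddCommMonoid β] (N M : ℕ) (f : ℕ → β) :
    ∑ n ∈ Finset.Ioc N (N + M), f n = ∑ j ∈ Finset.range M, f (N + 1 + j) := by
  have h : Finset.Ioc N (N + M) = Finset.Ico (N + 1) (N + 1 + M) := by
    ext x
    simp only [Finset.mem_Ioc, Finset.mem_Ico]
    omega
  rw [h, Finset.sum_Ico_eq_sum_range]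
  simp

theorem farey_sep {Q : ℕ} {q q' b b' : ℕ} (hq : q + 1 ≤ Q) (hq' : q' + 1 ≤ Q)
    (hb : b < q + 1) (hb' : b' < q' + 1)
    (hne : (b : ℝ) / ((q + 1 : ℕ) : ℝ) ≠ (b' : ℝ) / ((q' + 1 : ℕ) : ℝ)) :
    1 / ((Q ^ 2 : ℕ) : ℝ) ≤ nrm ((b : ℝ) / ((q + 1 : ℕ) : ℝ) - (b' : ℝ) / ((q' + 1 : ℕ) : ℝ)) := by
  set x : ℝ := (b : ℝ) / ((q + 1 : ℕ) : ℝ) with hx
  set y : ℝ := (b' : ℝ) / ((q' + 1 : ℕ) : ℝ) with hy
  set k : ℤ := round (x - y) with hk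
  have hqp : (0 : ℝ) < ((q + 1 : ℕ) : ℝ) := by positivity
  have hqp' : (0 : ℝ) < ((q' + 1 : ℕ) : ℝ) := by positivity
  have e : x - y - k = (((b : ℤ) * (q' + 1 : ℕ) - (b' : ℤ) * (q + 1 : ℕ) -
      k * ((q + 1 : ℕ) * (q' + 1 : ℕ)) : ℤ) : ℝ) / (((q + 1 : ℕ) : ℝ) * ((q' + 1 : ℕ) : ℝ)) := by
    rw [hx, hy]
    push_cast
    push_cast at hqp hqp'
    field_simp
  unfold nrm
  rw [← hk, e, abs_div, abs_of_pos (mul_pos hqp hqp')]
  have hm : ((b : ℤ) * (q' + 1 : ℕ) - (b' : ℤ) * (q + 1 : ℕ) -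
      k * ((q + 1 : ℕ) * (q' + 1 : ℕ)) : ℤ) ≠ 0 := by
    intro h0
    rw [h0, Int.cast_zero, zero_div] at e
    have e2 : x - y = k := by linarith
    have hx0 : 0 ≤ x := by positivity
    have hy0 : 0 ≤ y := by positivity
    have hx1 : x < 1 := by
      rw [hx, div_lt_one hqp]
      exact_mod_cast hb
    have hy1 : y < 1 := by
      rw [hy, div_lt_one hqp']
      exact_mod_cast hb'
    have h1 : (k : ℝ) < 1 := by linarith
    have h2 : (-1 : ℝ) < k := by linarith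
    have h3 : k < 1 := by exact_mod_cast h1
    have h4 : -1 < k := by exact_mod_cast h2
    have h5 : k = 0 := by omega
    rw [h5, Int.cast_zero] at e2
    exact hne (by linarith)
  have h1 := Int.one_le_abs hm
  have h2 : (1 : ℝ) ≤ |(((b : ℤ) * (q' + 1 : ℕ) - (b' : ℤ) * (q + 1 : ℕ) -
      k * ((q + 1 : ℕ) * (q' + 1 : ℕ)) : ℤ) : ℝ)| := by exact_mod_cast h1
  have h3 : ((q + 1 : ℕ) : ℝ) * ((q' + 1 : ℕ) : ℝ) ≤ ((Q ^ 2 : ℕ) : ℝ) := by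
    have : (q + 1) * (q' + 1) ≤ Q ^ 2 := by
      rw [sq]
      exact Nat.mul_le_mul hq hq'
    exact_mod_cast this
  calc 1 / ((Q ^ 2 : ℕ) : ℝ) ≤ 1 / (((q + 1 : ℕ) : ℝ) * ((q' + 1 : ℕ) : ℝ)) :=
        one_div_le_one_div_of_le (mul_pos hqp hqp') h3
    _ ≤ _ := div_le_div_of_nonneg_right h2 (mul_pos hqp hqp').le

theorem farey_inj {q q' b b' : ℕ}
    (hb : Nat.Coprime b (q + 1)) (hb' : Nat.Coprime b' (q' + 1))
    (h : (b : ℝ) / ((q + 1 : ℕ) : ℝ) = (b' : ℝ) / ((q' + 1 : ℕ) : ℝ)) : q = q' ∧ b = b' := by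
  have hqp : (0 : ℝ) < ((q + 1 : ℕ) : ℝ) := by positivity
  have hqp' : (0 : ℝ) < ((q' + 1 : ℕ) : ℝ) := by positivity
  rw [div_eq_div_iff hqp.ne' hqp'.ne'] at h
  have h1 : b * (q' + 1) = b' * (q + 1) := by exact_mod_cast h
  have d1 : (q + 1) ∣ (q' + 1) :=
    (Nat.Coprime.symm hb).dvd_of_dvd_mul_left ⟨b', by rw [h1]; ring⟩
  have d2 : (q' + 1) ∣ (q + 1) :=
    (Nat.Coprime.symm hb').dvd_of_dvd_mul_left ⟨b, by rw [← h1]; ring⟩
  have e1 : q + 1 = q' + 1 := Nat.dvd_antisymm d1 d2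
  rw [e1] at h1
  exact ⟨by omega, Nat.eq_of_mul_eq_mul_right (Nat.succ_pos _) h1⟩

theorem shift_sum (N M : ℕ) (a : ℕ → ℂ) (θ : ℝ) :
    ‖∑ n ∈ Finset.Ioc N (N + M), a n * ex (n * θ)‖ =
      ‖∑ j ∈ Finset.range (M + 1), (if j < M then a (N + 1 + j) else 0) * ex (j * θ)‖ := by
  rw [reind, Finset.sum_range_succ, if_neg (lt_irrefl M), zero_mul, add_zero]
  have h : ∑ j ∈ Finset.range M, a (N + 1 + j) * ex (((N + 1 + j : ℕ) : ℝ) * θ) =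
      ex (((N + 1 : ℕ) : ℝ) * θ) * ∑ j ∈ Finset.range M,
        (if j < M then a (N + 1 + j) else 0) * ex (j * θ) := by
    rw [Finset.mul_sum]
    refine Finset.sum_congr rfl fun j hj => ?_
    rw [if_pos (Finset.mem_range.1 hj)]
    have h1 : ((N + 1 + j : ℕ) : ℝ) * θ = ((N + 1 : ℕ) : ℝ) * θ + j * θ := by
      push_cast
      ring
    rw [h1, ex_add]
    ring
  rw [h, norm_mul, norm_ex, one_mul]

theorem shift_norm (N M : ℕ) (a : ℕ → ℂ) :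
    ∑ j ∈ Finset.range (M + 1), ‖(if j < M then a (N + 1 + j) else 0)‖ ^ 2 =
      ∑ n ∈ Finset.Ioc N (N + M), ‖a n‖ ^ 2 := by
  rw [reind, Finset.sum_range_succ, if_neg (lt_irrefl M), norm_zero]
  rw [zero_pow two_ne_zero, add_zero]
  refine Finset.sum_congr rfl fun j hj => ?_
  rw [if_pos (Finset.mem_range.1 hj)]

end MSieveAux

theorem mult_sieve : ∃ C : ℝ, 1 ≤ C ∧ ∀ (Q N M : ℕ) (a : ℕ → ℂ),
    primSum Q (fun q χ => ‖∑ n ∈ Finset.Ioc N (N + M), a n * χ (n : ZMod q)‖ ^ 2) ≤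
      C * ((M : ℝ) + (Q : ℝ) ^ 2) * ∑ n ∈ Finset.Ioc N (N + M), ‖a n‖ ^ 2 := by
  obtain ⟨C, hC, hls⟩ := large_sieve_sep
  refine ⟨2 * C, by linarith, ?_⟩
  intro Q N M a
  have hS0 : 0 ≤ ∑ n ∈ Finset.Ioc N (N + M), ‖a n‖ ^ 2 :=
    Finset.sum_nonneg fun _ _ => sq_nonneg _
  rcases Nat.eq_zero_or_pos Q with rfl | hQ
  · unfold primSum
    rw [Finset.range_zero, Finset.sum_empty]
    positivity
  set P : Finset (Σ _ : ℕ, ℕ) := (Finset.range Q).sigma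
    (fun q => (Finset.range (q + 1)).filter (fun b => Nat.Coprime b (q + 1))) with hP
  set φ : (Σ _ : ℕ, ℕ) → ℝ := fun z => (z.2 : ℝ) / ((z.1 + 1 : ℕ) : ℝ) with hφ
  set G : ℝ → ℝ := fun θ => ‖∑ n ∈ Finset.Ioc N (N + M), a n * ex (n * θ)‖ ^ 2 with hG
  have h1 : primSum Q (fun q χ => ‖∑ n ∈ Finset.Ioc N (N + M), a n * χ (n : ZMod q)‖ ^ 2) ≤
      ∑ z ∈ P, G (φ z) := by
    unfold primSum
    rw [hP, Finset.sum_sigma]
    refine Finset.sum_le_sum fun q _ => ?_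
    exact prim_sum_le (q + 1) (Finset.Ioc N (N + M)) a
  have hmem : ∀ z ∈ P, z.1 + 1 ≤ Q ∧ z.2 < z.1 + 1 ∧ Nat.Coprime z.2 (z.1 + 1) := by
    intro z hz
    rw [hP, Finset.mem_sigma, Finset.mem_range, Finset.mem_filter, Finset.mem_range] at hz
    exact ⟨hz.1, hz.2.1, hz.2.2⟩
  have hinj : Set.InjOn φ P := by
    rintro ⟨q, b⟩ hz ⟨q', b'⟩ hz' h
    obtain ⟨e1, e2⟩ := MSieveAux.farey_inj (hmem _ hz).2.2 (hmem _ hz').2.2 h
    simp only at e1 e2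
    subst e1 e2
    rfl
  have h2 : ∑ z ∈ P, G (φ z) = ∑ θ ∈ P.image φ, G θ := by
    rw [Finset.sum_image hinj]
  have hsep : Sep (Q ^ 2) (P.image φ) := by
    intro θ hθ θ' hθ' hne
    obtain ⟨z, hz, rfl⟩ := Finset.mem_image.1 hθ
    obtain ⟨z', hz', rfl⟩ := Finset.mem_image.1 hθ'
    exact MSieveAux.farey_sep (hmem z hz).1 (hmem z' hz').1 (hmem z hz).2.1 (hmem z' hz').2.1 hne
  have h3 := hls M (Q ^ 2) (P.image φ) (fun j => if j < M then a (N + 1 + j) else 0)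
    (Nat.one_le_pow _ _ hQ) hsep
  rw [MSieveAux.shift_norm] at h3
  have h4 : ∑ θ ∈ P.image φ, G θ = ∑ θ ∈ P.image φ,
      ‖∑ n ∈ Finset.range (M + 1), (if n < M then a (N + 1 + n) else 0) * ex (n * θ)‖ ^ 2 := by
    refine Finset.sum_congr rfl fun θ _ => ?_
    rw [hG]
    simp only
    rw [MSieveAux.shift_sum]
  rw [h2, h4] at h1
  refine h1.trans (h3.trans ?_)
  refine mul_le_mul_of_nonneg_right ?_ hS0
  have hQ1 : (1 : ℝ) ≤ (Q : ℝ) ^ 2 := one_le_pow₀ (by exact_mod_cast hQ)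
  have hM0 : (0 : ℝ) ≤ M := Nat.cast_nonneg _
  push_cast
  nlinarith

end Pool.Agent.BVH
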