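import Pool.Agent.Lib.BVH.Riesz
import Pool.Agent.Lib.BV.Main

/-!
MODULE BVH.Main (1 h).  The Bombieri-Vinogradov theorem with level of distribution x^(1/2 - η).

PROOF.  Copy `bv_weak` (BV/Main.lean) with `riesz_half` in place of `riesz_ap` and x^(1/2-η) in place of
x^(1/20).  The prime powers contribute Q 2 √x L ≤ 2 x^(1-η) L ≤ C3 x/L^A: use
`log_pow_le_rpow` with the power η in place of 9/20, i.e. (log x)^k ≤ C x^η for x ≥ 1
(same proof).
-/

set_option autoImplicit false

namespace Pool.Agent.BVH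

open Pool.Agent.Lib.BV Pool.Agent.Lib.SW

/-- Powers of the logarithm against the power `η`. -/
private lemma log_pow_le_rpow_eta (k : ℕ) {η : ℝ} (hη : 0 < η) : ∃ C : ℝ, 0 < C ∧ ∀ x : ℝ, 1 ≤ x →
    (Real.log x) ^ k ≤ C * x ^ η := by
  refine ⟨(1 / η * ((k:ℝ)+1)) ^ k, by positivity, fun x hx => ?_⟩
  have h0 : 0 ≤ Real.log x := Real.log_nonneg hx
  have hx0 : (0:ℝ) ≤ x := by linarith
  have hε : (0:ℝ) < 1 / (1 / η * ((k:ℝ)+1)) := by positivity
  have h1 := Real.log_le_rpow_div hx0 hε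
  have h2 := pow_le_pow_left₀ h0 h1 k
  refine h2.trans ?_
  rw [div_pow, one_div, inv_pow, div_inv_eq_mul, mul_comm]
  apply mul_le_mul_of_nonneg_left _ (by positivity)
  rw [← Real.rpow_natCast, ← Real.rpow_mul hx0]
  apply Real.rpow_le_rpow_of_exponent_le hx
  rw [inv_mul_eq_div, div_le_iff₀ (by positivity)]
  have : η * (1 / η * ((k:ℝ) + 1)) = (k:ℝ) + 1 := by field_simp
  rw [this]
  linarith

/-- **Bombieri-Vinogradov theorem with level of distribution 1/2.** -/
theorem bv_half (A : ℕ) {η : ℝ} (hη : 0 < η) (hη1 : η ≤ 1 / 4) :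
    ∃ C x₀ : ℝ, 0 < C ∧ ∀ x : ℝ, x₀ ≤ x → ∃ E : ℕ → ℝ,
    (∀ q, 0 ≤ E q) ∧
    (∑ q ∈ Finset.Icc 1 ⌊x ^ (1 / 2 - η)⌋₊, E q ≤ C * x / (Real.log x) ^ A) ∧
    ∀ q ∈ Finset.Icc 1 ⌊x ^ (1 / 2 - η)⌋₊, ∀ a : ℕ, a.Coprime q → ∀ y : ℝ, 1 ≤ y → y ≤ x →
      |thetaAP y q a - y / (q.totient : ℝ)| ≤ E q := by
  obtain ⟨C', x₀', hC', hR⟩ := riesz_half (2 * A + 1) hη hη1
  obtain ⟨C1, hC1, htot⟩ := sum_inv_totient
  obtain ⟨C2, hC2, hsq⟩ := log_pow_le_sqrt (A + 1)
  obtain ⟨C3, hC3, hrp⟩ := log_pow_le_rpow_eta (A + 1) hη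
  refine ⟨4 * C1 + 8 * C' + 2 * C3, max (max 3 x₀') (C2 ^ 2), by positivity, fun x hx => ?_⟩
  have hx3 : 3 ≤ x := (le_max_left _ _).trans ((le_max_left _ _).trans hx)
  have hx0' : x₀' ≤ x := (le_max_right _ _).trans ((le_max_left _ _).trans hx)
  have hxC : C2 ^ 2 ≤ x := (le_max_right _ _).trans hx
  have hxpos : 0 < x := by linarith
  set L := Real.log x with hL
  have hL1 : 1 ≤ L := by
    rw [hL, Real.le_log_iff_exp_le hxpos]
    have := Real.exp_one_lt_d9
    linarith
  have hLpos : 0 < L := by linarith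
  set h := x / L ^ (A + 1) with hh
  have hhpos : 0 < h := by positivity
  have hhx : h ≤ x := by
    rw [hh, div_le_iff₀ (by positivity)]
    exact le_mul_of_one_le_right hxpos.le (one_le_pow₀ hL1)
  have hh1 : 1 ≤ h := by
    rw [hh, le_div_iff₀ (by positivity), one_mul]
    refine (hsq x (by linarith)).trans ?_
    have h1 : C2 ≤ Real.sqrt x := by
      rw [← Real.sqrt_sq hC2.le]
      exact Real.sqrt_le_sqrt hxC
    calc C2 * Real.sqrt x ≤ Real.sqrt x * Real.sqrt x :=
          mul_le_mul_of_nonneg_right h1 (Real.sqrt_nonneg _)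
      _ = x := Real.mul_self_sqrt hxpos.le
  obtain ⟨E', hE0, hEsum, hE⟩ := hR (2 * x) (by linarith)
  set Q := ⌊x ^ (1 / 2 - η)⌋₊ with hQ
  have hQQ : Q ≤ ⌊(2 * x) ^ (1 / 2 - η)⌋₊ := by
    apply Nat.floor_mono
    apply Real.rpow_le_rpow hxpos.le (by linarith) (by linarith)
  have hQ1 : 1 ≤ Q := by
    apply Nat.le_floor
    push_cast
    exact Real.one_le_rpow (by linarith) (by linarith)
  have hQx : (Q:ℝ) ≤ x ^ (1 / 2 - η) := Nat.floor_le (by positivity)
  refine ⟨fun q => (1 + h) / (q.totient : ℝ) + 2 * E' q / h + 2 * Real.sqrt x * L, ?_, ?_, ?_⟩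
  · intro q
    have := hE0 q
    positivity
  · rw [Finset.sum_add_distrib, Finset.sum_add_distrib]
    -- the totient part
    have s1 : ∑ q ∈ Finset.Icc 1 Q, (1 + h) / (q.totient : ℝ) ≤ 4 * C1 * (x / L ^ A) := by
      have e1 : ∑ q ∈ Finset.Icc 1 Q, (1 + h) / (q.totient : ℝ) =
          (1 + h) * ∑ q ∈ Finset.Icc 1 Q, 1 / (q.totient : ℝ) := by
        rw [Finset.mul_sum]
        exact Finset.sum_congr rfl fun q _ => by rw [mul_one_div]
      rw [e1]
      have e2 : Real.log Q ≤ L := by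
        apply Real.log_le_log (by exact_mod_cast hQ1)
        refine hQx.trans ?_
        calc x ^ (1 / 2 - η) ≤ x ^ (1:ℝ) :=
              Real.rpow_le_rpow_of_exponent_le (by linarith) (by linarith)
          _ = x := Real.rpow_one x
      calc (1 + h) * ∑ q ∈ Finset.Icc 1 Q, 1 / (q.totient : ℝ)
          ≤ (2 * h) * (C1 * (2 * L)) := by
            apply mul_le_mul (by linarith) _ (Finset.sum_nonneg fun _ _ => by positivity)
              (by positivity)
            refine (htot Q hQ1).trans ?_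
            apply mul_le_mul_of_nonneg_left _ hC1.le
            linarith
        _ = 4 * C1 * (x / L ^ A) := by
            rw [hh, pow_succ]
            field_simp
            ring
    -- the Riesz part
    have s2 : ∑ q ∈ Finset.Icc 1 Q, 2 * E' q / h ≤ 8 * C' * (x / L ^ A) := by
      have e1 : ∑ q ∈ Finset.Icc 1 Q, 2 * E' q / h =
          2 / h * ∑ q ∈ Finset.Icc 1 Q, E' q := by
        rw [Finset.mul_sum]
        exact Finset.sum_congr rfl fun q _ => by ring
      rw [e1]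
      have e2 : ∑ q ∈ Finset.Icc 1 Q, E' q ≤ C' * (2 * x) ^ 2 / L ^ (2 * A + 1) := by
        refine (Finset.sum_le_sum_of_subset_of_nonneg
          (Finset.Icc_subset_Icc_right hQQ) fun q _ _ => hE0 q).trans (hEsum.trans ?_)
        apply div_le_div_of_nonneg_left (by positivity) (by positivity)
        apply pow_le_pow_left₀ hLpos.le
        exact Real.log_le_log hxpos (by linarith)
      calc 2 / h * ∑ q ∈ Finset.Icc 1 Q, E' q
          ≤ 2 / h * (C' * (2 * x) ^ 2 / L ^ (2 * A + 1)) :=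
            mul_le_mul_of_nonneg_left e2 (by positivity)
        _ = 8 * C' * (x / L ^ A) := by
            rw [hh, show 2 * A + 1 = A + (A + 1) by ring, pow_add L A (A + 1)]
            field_simp
            ring
    -- prime powers
    have s3 : ∑ q ∈ Finset.Icc 1 Q, 2 * Real.sqrt x * L ≤ 2 * C3 * (x / L ^ A) := by
      rw [Finset.sum_const, Nat.card_Icc, nsmul_eq_mul, add_tsub_cancel_right]
      have e1 := hrp x (by linarith)
      rw [← hL] at e1
      have e2 : x ^ (1 / 2 - η) * Real.sqrt x * x ^ η = x := by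
        rw [Real.sqrt_eq_rpow, ← Real.rpow_add hxpos, ← Real.rpow_add hxpos,
          show (1 / 2 - η + 1 / 2 + η : ℝ) = 1 by ring, Real.rpow_one]
      have e3 : x ^ (1 / 2 - η) * (2 * Real.sqrt x * L) * L ^ A ≤ 2 * C3 * x := by
        calc x ^ (1 / 2 - η) * (2 * Real.sqrt x * L) * L ^ A
            = 2 * (x ^ (1 / 2 - η) * Real.sqrt x) * L ^ (A + 1) := by rw [pow_succ]; ring
          _ ≤ 2 * (x ^ (1 / 2 - η) * Real.sqrt x) * (C3 * x ^ η) :=
              mul_le_mul_of_nonneg_left e1 (by positivity)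
          _ = 2 * C3 * (x ^ (1 / 2 - η) * Real.sqrt x * x ^ η) := by ring
          _ = 2 * C3 * x := by rw [e2]
      calc (Q:ℝ) * (2 * Real.sqrt x * L) ≤ x ^ (1 / 2 - η) * (2 * Real.sqrt x * L) :=
            mul_le_mul_of_nonneg_right hQx (by positivity)
        _ ≤ 2 * C3 * x / L ^ A := by
            rw [le_div_iff₀ (by positivity)]
            exact e3
        _ = 2 * C3 * (x / L ^ A) := by ring
    calc _ ≤ 4 * C1 * (x / L ^ A) + 8 * C' * (x / L ^ A) + 2 * C3 * (x / L ^ A) :=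
          add_le_add (add_le_add s1 s2) s3
      _ = (4 * C1 + 8 * C' + 2 * C3) * x / L ^ A := by ring
  · intro q hq a ha y hy hyx
    have hq' : q ∈ Finset.Icc 1 ⌊(2 * x) ^ (1 / 2 - η)⌋₊ :=
      Finset.Icc_subset_Icc_right hQQ hq
    have hq1 : 1 ≤ q := (Finset.mem_Icc.1 hq).1
    have hf : (0:ℝ) < (q.totient : ℝ) := by exact_mod_cast Nat.totient_pos.2 hq1
    have h1 := psi_of_RS (x := x) (e := E' q) q a hhpos hhx hf
      (fun z hz1 hz2 => hE q hq' a ha z hz1 hz2) y hy hyx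
    have h2 := psi_theta hy hyx q a
    have h3 : |thetaAP y q a - y / (q.totient : ℝ)| ≤
        |psiAP y q a - y / (q.totient : ℝ)| + |psiAP y q a - thetaAP y q a| := by
      have : thetaAP y q a - y / (q.totient : ℝ) =
          (psiAP y q a - y / (q.totient : ℝ)) - (psiAP y q a - thetaAP y q a) := by ring
      rw [this]
      exact abs_sub _ _
    linarith

end Pool.Agent.BVH
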