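import Pool.Agent.Lib.BVH.Block

/-!
MODULE BVH.Pair (1.5 h).  A pair of dyadic blocks.

`Gp x f g U V X i j q χ = 4 x 2^(i+j) ∫ ‖bA f U X i q χ t‖ ‖bA g V X j q χ t‖ / t2w t dt
   + x ‖bB f U X i q χ‖ ‖bB g V X j q χ‖`.

PROOF of `pair_le`.  Put Z = 4 * 2^(i+j); for m ∈ blk U X i, k ∈ blk V X j: 2^(i+j) ≤ m k < Z.  Let
a m = f m χ(m), b k = g k χ(k).
Case y < 2^(i+j) (or =): all max (y - m k) 0 = 0, the left side is 0.
Case 2^(i+j) ≤ y ≤ Z: `kernel_bound` (BV/Kernel.lean; S, T the blocks, elements ≥ 1): the left side is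
≤ y² ∫ ... ≤ x Z ∫ ... = 4 x 2^(i+j) ∫ ....
Case y > Z: max (y - m k) 0 = y - m k = max (Z - m k) 0 + (y - Z), so the left side is
≤ ‖∑∑ a b max (Z - m k) 0‖ + (y - Z) ‖∑ a‖ ‖∑ b‖ ≤ Z² ∫ ... + x ‖bB‖ ‖bB‖, and Z² ≤ y Z ≤ x Z.
(`t2w t = ‖1 + t I‖ ‖2 + t I‖`, BV/TypeII.lean.)

PROOF of `pair_sum`.  Integrability: as `t2_integrable` (copy it: bA is continuous and bounded in t,
or note that bA f U X i is t2A of the function that is f on the block and 0 elsewhere);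
`t2_swap`, `t2_primSum_mul`, `primSum_add`.  For every t, by the Cauchy-Schwarz inequality for the
finite sum primSum (nonnegative terms; prove
`primSum Q (fun q χ => u q χ * v q χ) ≤ √(primSum Q (fun q χ => u q χ ^ 2)) * √(primSum Q (fun q χ => v q χ ^ 2))`
for u, v ≥ 0) and `bA_sieve`:
primSum Q ‖bA f‖ ‖bA g‖ ≤ C √(1 + Q²/2^i) √(1 + Q²/2^j) √(SF SG), and the same for bB with the factor
C √(4^i 4^j) = C 2^(i+j).  ∫ 1/t2w < ∞ (`kernel_integrable`).  √(1 + Q²/2^i) ≤ 1 + Q/√(2^i) etc. and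
2^(i+j) (1 + Q/√(2^i)) (1 + Q/√(2^j)) = 2^(i+j) + Q 2^(i+j)/√(2^i) + Q 2^(i+j)/√(2^j) + Q² √(2^(i+j)),
2^(i+j) ≤ x.
-/

set_option autoImplicit false

open Complex MeasureTheory

namespace Pool.Agent.BVH

open Pool.Agent.Lib.BV

/-- The majorant for a pair of blocks. -/
noncomputable def Gp (x : ℝ) (f g : ℕ → ℝ) (U V X i j : ℕ) (q : ℕ) (χ : DirichletCharacter ℂ q) : ℝ :=
  4 * x * 2 ^ (i + j) * (∫ t : ℝ, ‖bA f U X i q χ t‖ * ‖bA g V X j q χ t‖ / t2w t) +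
    x * (‖bB f U X i q χ‖ * ‖bB g V X j q χ‖)

namespace PairAux

/-- The function restricted to a dyadic block. -/
def bf (f : ℕ → ℝ) (i : ℕ) : ℕ → ℝ := fun m => if Nat.log 2 m = i then f m else 0

lemma bA_eq (f : ℕ → ℝ) (U X i : ℕ) (q : ℕ) (χ : DirichletCharacter ℂ q) (t : ℝ) :
    bA f U X i q χ t = t2A (bf f i) U X q χ t := by
  unfold bA t2A blk bf
  rw [Finset.sum_filter]
  refine Finset.sum_congr rfl fun m _ => ?_
  split_ifs <;> simp

lemma integrable_pair (f g : ℕ → ℝ) (U V X i j : ℕ) (q : ℕ) (χ : DirichletCharacter ℂ q) :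
    Integrable (fun t : ℝ => ‖bA f U X i q χ t‖ * ‖bA g V X j q χ t‖ / t2w t) := by
  simp only [bA_eq]
  exact t2_integrable _ _ _ _ _ q χ

lemma int_nonneg (f g : ℕ → ℝ) (U V X i j : ℕ) (q : ℕ) (χ : DirichletCharacter ℂ q) :
    0 ≤ ∫ t : ℝ, ‖bA f U X i q χ t‖ * ‖bA g V X j q χ t‖ / t2w t :=
  integral_nonneg fun t => by
    have := t2w_pos t
    positivity

lemma mem_blk' {U X i m : ℕ} (h : m ∈ blk U X i) :
    1 ≤ m ∧ (2:ℝ) ^ i ≤ m ∧ (m:ℝ) ≤ 2 * 2 ^ i := by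
  unfold blk at h
  rw [Finset.mem_filter, Finset.mem_Ioc] at h
  obtain ⟨⟨h1, h2⟩, h3⟩ := h
  have h0 : m ≠ 0 := by omega
  have h4 : 2 ^ i ≤ m := by rw [← h3]; exact Nat.pow_log_le_self 2 h0
  have h5 : m < 2 ^ (i + 1) := by rw [← h3]; exact Nat.lt_pow_succ_log_self (by norm_num) m
  refine ⟨by omega, by exact_mod_cast h4, ?_⟩
  have h6 : m ≤ 2 * 2 ^ i := by rw [pow_succ] at h5; omega
  exact_mod_cast h6

lemma mem_two {U V X i j m k : ℕ} (hm : m ∈ blk U X i) (hk : k ∈ blk V X j) :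
    (2:ℝ) ^ (i + j) ≤ (m:ℝ) * k ∧ (m:ℝ) * k ≤ 4 * 2 ^ (i + j) := by
  obtain ⟨_, h1, h2⟩ := mem_blk' hm
  obtain ⟨_, h3, h4⟩ := mem_blk' hk
  have hp : (0:ℝ) < 2 ^ i := by positivity
  have hq : (0:ℝ) < 2 ^ j := by positivity
  constructor
  · rw [pow_add]
    exact mul_le_mul h1 h3 hq.le (by positivity)
  · calc (m:ℝ) * k ≤ (2 * 2 ^ i) * (2 * 2 ^ j) := mul_le_mul h2 h4 (by positivity) (by positivity)
      _ = _ := by rw [pow_add]; ring

lemma cs (Q : ℕ) (u v : (q : ℕ) → DirichletCharacter ℂ q → ℝ) (A B : ℝ)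
    (hA : primSum Q (fun q χ => u q χ ^ 2) ≤ A) (hB : primSum Q (fun q χ => v q χ ^ 2) ≤ B) :
    primSum Q (fun q χ => u q χ * v q χ) ≤ √(A * B) := by
  classical
  have h0 : ∀ w : (q : ℕ) → DirichletCharacter ℂ q → ℝ, 0 ≤ primSum Q (fun q χ => w q χ ^ 2) :=
    fun w => primSum_nonneg fun q χ => sq_nonneg _
  have key : primSum Q (fun q χ => u q χ * v q χ) ^ 2 ≤
      primSum Q (fun q χ => u q χ ^ 2) * primSum Q (fun q χ => v q χ ^ 2) := by
    have h := Finset.sum_mul_sq_le_sq_mul_sq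
      ((Finset.range Q).sigma (fun q => (Finset.univ : Finset (DirichletCharacter ℂ (q+1)))))
      (fun p => if p.2.IsPrimitive then u (p.1+1) p.2 else 0)
      (fun p => if p.2.IsPrimitive then v (p.1+1) p.2 else 0)
    have e : ∀ w : (q : ℕ) → DirichletCharacter ℂ q → ℝ, primSum Q w =
        ∑ p ∈ (Finset.range Q).sigma (fun q => (Finset.univ : Finset (DirichletCharacter ℂ (q+1)))),
          if p.2.IsPrimitive then w (p.1+1) p.2 else 0 := by
      intro w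
      unfold primSum
      rw [Finset.sum_sigma]
    rw [e, e, e]
    refine le_trans (le_of_eq ?_) (h.trans (le_of_eq ?_))
    · congr 1
      refine Finset.sum_congr rfl fun p _ => ?_
      split_ifs <;> simp
    · congr 1
      · refine Finset.sum_congr rfl fun p _ => ?_
        split_ifs <;> simp
      · refine Finset.sum_congr rfl fun p _ => ?_
        split_ifs <;> simp
  refine (le_abs_self _).trans (Real.abs_le_sqrt (key.trans ?_))
  exact mul_le_mul hA hB (h0 v) ((h0 u).trans hA)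

lemma sqrt_bound {c A A' a a' S S' : ℝ} (hc : 0 ≤ c) (hA0 : 0 ≤ A) (hA0' : 0 ≤ A')
    (hA : A ≤ a ^ 2) (hA' : A' ≤ a' ^ 2) (ha : 0 ≤ a) (ha' : 0 ≤ a') (hS : 0 ≤ S) (hS' : 0 ≤ S') :
    √((c * A * S) * (c * A' * S')) ≤ c * (a * a') * √(S * S') := by
  rw [Real.sqrt_le_left (by positivity)]
  have e : (c * (a * a') * √(S * S')) ^ 2 = c ^ 2 * (a ^ 2 * a' ^ 2) * (S * S') := by
    rw [mul_pow, Real.sq_sqrt (by positivity)]
    ring
  rw [e]
  have h1 : A * A' ≤ a ^ 2 * a' ^ 2 := mul_le_mul hA hA' hA0' (by positivity)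
  calc (c * A * S) * (c * A' * S') = c ^ 2 * (A * A') * (S * S') := by ring
    _ ≤ _ := by
        apply mul_le_mul_of_nonneg_right _ (by positivity)
        exact mul_le_mul_of_nonneg_left h1 (by positivity)

lemma one_add_le {Q p : ℝ} (hQ : 0 ≤ Q) (hp : 0 < p) : 1 + Q ^ 2 / p ≤ (1 + Q / √p) ^ 2 := by
  have h : √p ^ 2 = p := Real.sq_sqrt hp.le
  have e : (1 + Q / √p) ^ 2 = 1 + 2 * (Q / √p) + Q ^ 2 / p := by
    rw [add_sq, div_pow, h]
    ring
  rw [e]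
  have : 0 ≤ Q / √p := by positivity
  linarith

lemma final {x Q p p' : ℝ} (hx : 0 ≤ x) (hQ : 0 ≤ Q) (hp : 0 < p) (hp' : 0 < p')
    (h : p * p' ≤ x) :
    (p * p') * ((1 + Q / √p) * (1 + Q / √p')) ≤ x + Q * x / √p + Q * x / √p' + Q ^ 2 * √x := by
  have hs : 0 < √p := Real.sqrt_pos.2 hp
  have hs' : 0 < √p' := Real.sqrt_pos.2 hp'
  have e0 : √p * √p = p := Real.mul_self_sqrt hp.le
  have e0' : √p' * √p' = p' := Real.mul_self_sqrt hp'.le
  have e1 : (p * p') * ((1 + Q / √p) * (1 + Q / √p')) =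
      (p * p') + Q * (p * p') / √p + Q * (p * p') / √p' + Q ^ 2 * (√p * √p') := by
    have e2 : (p * p') * ((Q / √p) * (Q / √p')) = Q ^ 2 * (√p * √p') := by
      rw [div_mul_div_comm, mul_div_assoc', div_eq_iff (by positivity)]
      calc p * p' * (Q * Q) = (√p * √p) * (√p' * √p') * (Q * Q) := by rw [e0, e0']
        _ = _ := by ring
    calc (p * p') * ((1 + Q / √p) * (1 + Q / √p')) =
        (p * p') + Q * (p * p') / √p + Q * (p * p') / √p' + (p * p') * ((Q / √p) * (Q / √p')) := by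
          ring
      _ = _ := by rw [e2]
  rw [e1]
  have h1 : √p * √p' ≤ √x := by
    rw [← Real.sqrt_mul hp.le]
    exact Real.sqrt_le_sqrt h
  have h2 : Q * (p * p') / √p ≤ Q * x / √p :=
    div_le_div_of_nonneg_right (mul_le_mul_of_nonneg_left h hQ) hs.le
  have h3 : Q * (p * p') / √p' ≤ Q * x / √p' :=
    div_le_div_of_nonneg_right (mul_le_mul_of_nonneg_left h hQ) hs'.le
  have h4 : Q ^ 2 * (√p * √p') ≤ Q ^ 2 * √x := mul_le_mul_of_nonneg_left h1 (by positivity)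
  linarith

end PairAux

open PairAux

theorem Gp_nonneg {x : ℝ} (hx : 0 ≤ x) (f g : ℕ → ℝ) (U V X i j : ℕ) (q : ℕ)
    (χ : DirichletCharacter ℂ q) : 0 ≤ Gp x f g U V X i j q χ := by
  unfold Gp
  have h := int_nonneg f g U V X i j q χ
  positivity

theorem pair_le {x y : ℝ} (hy : 1 ≤ y) (hyx : y ≤ x) (f g : ℕ → ℝ) (U V X i j : ℕ)
    (q : ℕ) (χ : DirichletCharacter ℂ q) :
    ‖∑ m ∈ blk U X i, ∑ k ∈ blk V X j, (((f m : ℝ) : ℂ) * χ (m : ZMod q)) *
        (((g k : ℝ) : ℂ) * χ (k : ZMod q)) * ((max (y - m * k) 0 : ℝ) : ℂ)‖ ≤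
      Gp x f g U V X i j q χ := by
  have hx : 0 ≤ x := by linarith
  have hJ := int_nonneg f g U V X i j q χ
  set J : ℝ := ∫ t : ℝ, ‖bA f U X i q χ t‖ * ‖bA g V X j q χ t‖ / t2w t with hJd
  have hK : ∀ z : ℝ, 0 < z → ‖∑ m ∈ blk U X i, ∑ k ∈ blk V X j, (((f m : ℝ) : ℂ) * χ (m : ZMod q)) *
        (((g k : ℝ) : ℂ) * χ (k : ZMod q)) * ((max (z - m * k) 0 : ℝ) : ℂ)‖ ≤ z ^ 2 * J := by
    intro z hz
    exact kernel_bound (blk U X i) (blk V X j) (fun m hm => (mem_blk' hm).1)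
      (fun m hm => (mem_blk' hm).1) (fun m => ((f m : ℝ) : ℂ) * χ (m : ZMod q))
      (fun m => ((g m : ℝ) : ℂ) * χ (m : ZMod q)) z hz
  by_cases h1 : y < 2 ^ (i + j)
  · have e : ∑ m ∈ blk U X i, ∑ k ∈ blk V X j, (((f m : ℝ) : ℂ) * χ (m : ZMod q)) *
        (((g k : ℝ) : ℂ) * χ (k : ZMod q)) * ((max (y - m * k) 0 : ℝ) : ℂ) = 0 := by
      refine Finset.sum_eq_zero fun m hm => Finset.sum_eq_zero fun k hk => ?_
      rw [max_eq_right (by linarith [(mem_two hm hk).1])]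
      simp
    rw [e, norm_zero]
    exact Gp_nonneg hx f g U V X i j q χ
  rw [not_lt] at h1
  have hB0 : 0 ≤ x * (‖bB f U X i q χ‖ * ‖bB g V X j q χ‖) := by positivity
  by_cases h2 : y ≤ 4 * 2 ^ (i + j)
  · refine (hK y (by linarith)).trans ?_
    unfold Gp
    rw [← hJd]
    have h3 : y ^ 2 ≤ 4 * x * 2 ^ (i + j) := by
      calc y ^ 2 = y * y := by ring
        _ ≤ x * (4 * 2 ^ (i + j)) := mul_le_mul hyx h2 (by linarith) hx
        _ = _ := by ring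
    have h4 := mul_le_mul_of_nonneg_right h3 hJ
    linarith
  · rw [not_le] at h2
    have e : ∑ m ∈ blk U X i, ∑ k ∈ blk V X j, (((f m : ℝ) : ℂ) * χ (m : ZMod q)) *
        (((g k : ℝ) : ℂ) * χ (k : ZMod q)) * ((max (y - m * k) 0 : ℝ) : ℂ) =
        ∑ m ∈ blk U X i, ∑ k ∈ blk V X j, (((f m : ℝ) : ℂ) * χ (m : ZMod q)) *
          (((g k : ℝ) : ℂ) * χ (k : ZMod q)) * ((max (4 * 2 ^ (i + j) - (m:ℝ) * k) 0 : ℝ) : ℂ) +
        ((y - 4 * 2 ^ (i + j) : ℝ) : ℂ) * (bB f U X i q χ * bB g V X j q χ) := by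
      unfold bB
      rw [Finset.sum_mul_sum, Finset.mul_sum, ← Finset.sum_add_distrib]
      refine Finset.sum_congr rfl fun m hm => ?_
      rw [Finset.mul_sum, ← Finset.sum_add_distrib]
      refine Finset.sum_congr rfl fun k hk => ?_
      have h5 := (mem_two hm hk).2
      rw [max_eq_left (by linarith), max_eq_left (by linarith)]
      push_cast
      ring
    rw [e]
    refine (norm_add_le _ _).trans ?_
    unfold Gp
    rw [← hJd]
    have hZ : (0:ℝ) < 4 * 2 ^ (i + j) := by positivity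
    have h3 := hK (4 * 2 ^ (i + j)) hZ
    have h4 : (4 * (2:ℝ) ^ (i + j)) ^ 2 * J ≤ 4 * x * 2 ^ (i + j) * J := by
      apply mul_le_mul_of_nonneg_right _ hJ
      calc (4 * (2:ℝ) ^ (i + j)) ^ 2 = (4 * 2 ^ (i + j)) * (4 * 2 ^ (i + j)) := by ring
        _ ≤ x * (4 * 2 ^ (i + j)) := mul_le_mul_of_nonneg_right (by linarith) hZ.le
        _ = _ := by ring
    have h5 : ‖((y - 4 * 2 ^ (i + j) : ℝ) : ℂ) * (bB f U X i q χ * bB g V X j q χ)‖ ≤
        x * (‖bB f U X i q χ‖ * ‖bB g V X j q χ‖) := by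
      rw [norm_mul, norm_mul, Complex.norm_real, Real.norm_of_nonneg (by linarith)]
      exact mul_le_mul_of_nonneg_right (by linarith) (by positivity)
    linarith

theorem pair_sum : ∃ C : ℝ, 0 < C ∧ ∀ (f F g G : ℕ → ℝ), (∀ n, |f n| ≤ F n) → (∀ n, |g n| ≤ G n) →
    ∀ (x : ℝ) (Q U V X i j : ℕ), 0 ≤ x → (2:ℝ) ^ (i + j) ≤ x →
      primSum Q (fun q χ => Gp x f g U V X i j q χ) ≤
        C * x * (x + Q * x / √(2 ^ i) + Q * x / √(2 ^ j) + Q ^ 2 * √x) *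
          √((∑ n ∈ Finset.Icc 1 X, F n ^ 2 / n) * (∑ n ∈ Finset.Icc 1 X, G n ^ 2 / n)) := by
  obtain ⟨C1, hC1, hS1⟩ := bA_sieve
  obtain ⟨C2, hC2, hS2⟩ := bB_sieve
  set I0 : ℝ := ∫ t : ℝ, 1 / t2w t with hI0
  have hI0n : 0 ≤ I0 := integral_nonneg fun t => by
    have := t2w_pos t
    positivity
  refine ⟨4 * C1 * I0 + C2, by positivity, ?_⟩
  intro f F g G hf hg x Q U V X i j hx hijx
  have hSF : 0 ≤ ∑ n ∈ Finset.Icc 1 X, F n ^ 2 / (n:ℝ) := Finset.sum_nonneg fun n _ => by positivity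
  have hSG : 0 ≤ ∑ n ∈ Finset.Icc 1 X, G n ^ 2 / (n:ℝ) := Finset.sum_nonneg fun n _ => by positivity
  set SF : ℝ := ∑ n ∈ Finset.Icc 1 X, F n ^ 2 / (n:ℝ) with hSFd
  set SG : ℝ := ∑ n ∈ Finset.Icc 1 X, G n ^ 2 / (n:ℝ) with hSGd
  have hp : (0:ℝ) < 2 ^ i := by positivity
  have hp' : (0:ℝ) < 2 ^ j := by positivity
  have hQ : (0:ℝ) ≤ Q := Nat.cast_nonneg Q
  have hE := one_add_le hQ hp
  have hE' := one_add_le hQ hp'
  set a : ℝ := 1 + (Q:ℝ) / √(2 ^ i) with ha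
  set a' : ℝ := 1 + (Q:ℝ) / √(2 ^ j) with ha'
  have ha0 : 0 ≤ a := by positivity
  have ha0' : 0 ≤ a' := by positivity
  have hSS : 0 ≤ √(SF * SG) := Real.sqrt_nonneg _
  -- the first part
  let H : (q : ℕ) → DirichletCharacter ℂ q → ℝ → ℝ := fun q χ t =>
    ‖bA f U X i q χ t‖ * ‖bA g V X j q χ t‖ / t2w t
  have hHint : ∀ q χ, Integrable (H q χ) := fun q χ => integrable_pair f g U V X i j q χ
  have hpt : ∀ t : ℝ, primSum Q (fun q χ => H q χ t) ≤ (C1 * (a * a') * √(SF * SG)) * (1 / t2w t) := by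
    intro t
    have hw := t2w_pos t
    have e : (fun (q : ℕ) (χ : DirichletCharacter ℂ q) => H q χ t) =
        fun q χ => (1 / t2w t) * (‖bA f U X i q χ t‖ * ‖bA g V X j q χ t‖) := by
      funext q χ
      simp only [H]
      ring
    rw [e, t2_primSum_mul]
    have h1 := cs Q (fun q χ => ‖bA f U X i q χ t‖) (fun q χ => ‖bA g V X j q χ t‖) _ _
      (hS1 f F hf Q U X i t) (hS1 g G hg Q V X j t)
    have h2 := sqrt_bound (c := C1) (A := 1 + (Q:ℝ) ^ 2 / 2 ^ i) (A' := 1 + (Q:ℝ) ^ 2 / 2 ^ j)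
      (a := a) (a' := a') (S := SF) (S' := SG) (by linarith) (by positivity) (by positivity)
      hE hE' ha0 ha0' hSF hSG
    rw [mul_comm]
    exact mul_le_mul_of_nonneg_right (h1.trans h2) (by positivity)
  have h0 : Integrable (fun t : ℝ => 1 / t2w t) := kernel_integrable
  have hfirst : primSum Q (fun q χ => ∫ t, H q χ t) ≤ (C1 * (a * a') * √(SF * SG)) * I0 := by
    rw [t2_swap Q H hHint]
    have h2 : ∫ t, primSum Q (fun q χ => H q χ t) ≤
        ∫ t, (C1 * (a * a') * √(SF * SG)) * (1 / t2w t) :=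
      integral_mono (t2_primSum_integrable Q H hHint) (h0.const_mul _) hpt
    rwa [integral_const_mul, ← hI0] at h2
  -- the second part
  have hsecond : primSum Q (fun q χ => ‖bB f U X i q χ‖ * ‖bB g V X j q χ‖) ≤
      C2 * ((2 ^ i * a) * (2 ^ j * a')) * √(SF * SG) := by
    have h1 := cs Q (fun q χ => ‖bB f U X i q χ‖) (fun q χ => ‖bB g V X j q χ‖) _ _
      (hS2 f F hf Q U X i) (hS2 g G hg Q V X j)
    have e4 : ∀ k : ℕ, (4:ℝ) ^ k = 2 ^ k * 2 ^ k := by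
      intro k
      rw [← mul_pow]; norm_num
    have h2 := sqrt_bound (c := C2) (A := 4 ^ i * (1 + (Q:ℝ) ^ 2 / 2 ^ i))
      (A' := 4 ^ j * (1 + (Q:ℝ) ^ 2 / 2 ^ j))
      (a := 2 ^ i * a) (a' := 2 ^ j * a') (S := SF) (S' := SG) (by linarith) (by positivity)
      (by positivity)
      (by
        rw [e4 i]
        calc (2:ℝ) ^ i * 2 ^ i * (1 + (Q:ℝ) ^ 2 / 2 ^ i) ≤ 2 ^ i * 2 ^ i * a ^ 2 :=
              mul_le_mul_of_nonneg_left hE (by positivity)
          _ = _ := by ring)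
      (by
        rw [e4 j]
        calc (2:ℝ) ^ j * 2 ^ j * (1 + (Q:ℝ) ^ 2 / 2 ^ j) ≤ 2 ^ j * 2 ^ j * a' ^ 2 :=
              mul_le_mul_of_nonneg_left hE' (by positivity)
          _ = _ := by ring)
      (by positivity) (by positivity) hSF hSG
    refine h1.trans (le_trans (le_of_eq ?_) h2)
    congr 1
    ring
  -- assembling
  have hfin := final hx hQ hp hp' (by rw [← pow_add]; exact hijx)
  rw [← ha, ← ha'] at hfin
  have e0 : primSum Q (fun q χ => Gp x f g U V X i j q χ) =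
      4 * x * 2 ^ (i + j) * primSum Q (fun q χ => ∫ t, H q χ t) +
        x * primSum Q (fun q χ => ‖bB f U X i q χ‖ * ‖bB g V X j q χ‖) := by
    rw [← t2_primSum_mul, ← t2_primSum_mul, ← primSum_add]
    rfl
  rw [e0]
  set D : ℝ := x + Q * x / √(2 ^ i) + Q * x / √(2 ^ j) + Q ^ 2 * √x with hD
  calc 4 * x * 2 ^ (i + j) * primSum Q (fun q χ => ∫ t, H q χ t) +
        x * primSum Q (fun q χ => ‖bB f U X i q χ‖ * ‖bB g V X j q χ‖)
      ≤ 4 * x * 2 ^ (i + j) * ((C1 * (a * a') * √(SF * SG)) * I0) +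
        x * (C2 * ((2 ^ i * a) * (2 ^ j * a')) * √(SF * SG)) :=
        add_le_add (mul_le_mul_of_nonneg_left hfirst (by positivity))
          (mul_le_mul_of_nonneg_left hsecond hx)
    _ = (4 * C1 * I0 + C2) * x * ((2 ^ i * 2 ^ j) * (a * a')) * √(SF * SG) := by
        rw [pow_add]; ring
    _ ≤ (4 * C1 * I0 + C2) * x * D * √(SF * SG) := by
        apply mul_le_mul_of_nonneg_right _ hSS
        exact mul_le_mul_of_nonneg_left hfin (by positivity)

end Pool.Agent.BVH
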