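import Pool.Agent.Lib.BVH.TypeII

/-!
MODULE BVH.Prim (1 h).  Riesz means of χΛ on average over primitive characters, all conductors.

PROOF.  As `prim_bound` (BV/PrimBound.lean) with U in place of Q^4 for both parameters of Vaughan's
identity: G q χ = G2 q χ + 6 q U² x log x with G2 from `typeII_half` for U, V = U.  For χ ≠ 1 modulo q
(so q ≥ 1) and 1 ≤ y ≤ x: ‖RS (tw χ (LU U)) y‖ ≤ y U log(U+1) ≤ 2 U x log x (U ≤ x, so
log (U+1) ≤ 2 log x), `typeI_zeta` and `LU_mul_muV_sum`: ≤ q y U² log(U+1) ≤ 2 q U² x log x,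
`typeI_log` and `muV_sum_le`: ≤ 2 q y log y U ≤ 2 q U x log x.  The sum over the primitive characters of
moduli ≤ Q of c q is at most ∑_{q ≤ Q} φ(q) c q ≤ c Q³.  Q x/√U appears twice in typeII_half: constant 2.
-/

set_option autoImplicit false

open Complex

namespace Pool.Agent.BVH

open Pool.Agent.Lib.BV Pool.Agent.Lib.SW

private lemma primSum_lin_le (Q : ℕ) {c : ℝ} (hc : 0 ≤ c) :
    primSum Q (fun q _ => c * q) ≤ c * Q ^ 3 := by
  unfold primSum
  have h0 : c * (Q:ℝ) ^ 3 = ∑ _q ∈ Finset.range Q, (Q * (c * Q) : ℝ) := by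
    rw [Finset.sum_const, Finset.card_range, nsmul_eq_mul]
    ring
  rw [h0]
  refine Finset.sum_le_sum fun q hq => ?_
  rw [Finset.mem_range] at hq
  have hq1 : ((q + 1 : ℕ) : ℝ) ≤ Q := by exact_mod_cast hq
  refine (Finset.sum_le_sum (g := fun _ => c * (Q:ℝ)) fun χ _ => ?_).trans ?_
  · split_ifs
    · exact mul_le_mul_of_nonneg_left hq1 hc
    · positivity
  · rw [Finset.sum_const, nsmul_eq_mul, Finset.card_univ]
    apply mul_le_mul_of_nonneg_right _ (by positivity)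
    have h2 : Fintype.card (DirichletCharacter ℂ (q+1)) = (q+1).totient := by
      rw [← Nat.card_eq_fintype_card]
      exact DirichletCharacter.card_eq_totient_of_hasEnoughRootsOfUnity ℂ (q+1)
    rw [h2]
    have h3 := Nat.totient_le (q+1)
    exact_mod_cast h3.trans hq

theorem prim_half : ∃ C : ℝ, 0 < C ∧ ∀ (U : ℕ) (x : ℝ), 3 ≤ x → 1 ≤ U → (U:ℝ) ≤ x →
    ∃ G : (q : ℕ) → DirichletCharacter ℂ q → ℝ, (∀ q χ, 0 ≤ G q χ) ∧
      (∀ (q : ℕ) [NeZero q] (χ : DirichletCharacter ℂ q), χ ≠ 1 → ∀ y : ℝ, 1 ≤ y →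
        y ≤ x → ‖RS (lam (chf χ)) y‖ ≤ G q χ) ∧
      ∀ Q : ℕ, primSum Q G ≤ C * x * (Real.log x) ^ 6 * (x + Q * x / √U + Q ^ 2 * √x) +
        C * x * Real.log x * (Q ^ 3 * U ^ 2) := by
  obtain ⟨C, hC, hII⟩ := typeII_half
  refine ⟨2 * C + 6, by linarith, ?_⟩
  intro U x hx hU hUx
  obtain ⟨G2, hG2, hG2b, hG2s⟩ := hII U U x hx hU hU
  have hlog1 : 1 ≤ Real.log x := by
    have h1 : Real.exp 1 ≤ x := by
      have := Real.exp_one_lt_d9
      linarith
    have := Real.log_le_log (Real.exp_pos 1) h1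
    rwa [Real.log_exp] at this
  have hU1 : (1:ℝ) ≤ U := by exact_mod_cast hU
  have hlogU : Real.log ((U : ℝ) + 1) ≤ 2 * Real.log x := by
    have h1 : (U : ℝ) + 1 ≤ x ^ 2 := by nlinarith
    have h2 := Real.log_le_log (by positivity) h1
    rwa [Real.log_pow] at h2
  have hlogU0 : 0 ≤ Real.log ((U : ℝ) + 1) := Real.log_nonneg (by linarith)
  have hx0 : 0 < x := by linarith
  have hlx0 : 0 ≤ Real.log x := by linarith
  set K : ℝ := 6 * (U:ℝ) ^ 2 * x * Real.log x with hKdef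
  have hK0 : 0 ≤ K := by positivity
  refine ⟨fun q χ => G2 q χ + K * q, fun q χ => add_nonneg (hG2 q χ) (by positivity), ?_, ?_⟩
  · intro q hq0 χ hχ y hy hyx
    have hq1 : (1:ℝ) ≤ q := by
      have : 1 ≤ q := Nat.one_le_iff_ne_zero.2 (NeZero.ne q)
      exact_mod_cast this
    have hy0 : 0 ≤ y := by linarith
    have hlogy0 : 0 ≤ Real.log y := Real.log_nonneg hy
    have hlogyx : Real.log y ≤ Real.log x := Real.log_le_log (by linarith) hyx
    rw [RS_lam_eq χ U U y]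
    have h1 := RS_LU_le χ U y hy
    have h2 := typeI_zeta χ hχ (LU U * muV U) y hy
    have h3 := typeI_log χ hχ (muV U) y hy
    have h4 := hG2b q χ y hy hyx
    have h5 := LU_mul_muV_sum U U ⌊y⌋₊
    have h6 := muV_sum_le U ⌊y⌋₊
    have hUU : (U:ℝ) ≤ (U:ℝ) ^ 2 := by nlinarith
    have b1 : ‖RS (tw χ (LU U)) y‖ ≤ 2 * (U:ℝ) ^ 2 * x * Real.log x * q := by
      refine h1.trans ?_
      calc y * ((U : ℝ) * Real.log ((U : ℝ) + 1))
          ≤ x * ((U:ℝ) ^ 2 * (2 * Real.log x)) := by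
            apply mul_le_mul hyx _ (by positivity) hx0.le
            exact mul_le_mul hUU hlogU hlogU0 (by positivity)
        _ = 2 * (U:ℝ) ^ 2 * x * Real.log x * 1 := by ring
        _ ≤ 2 * (U:ℝ) ^ 2 * x * Real.log x * q := mul_le_mul_of_nonneg_left hq1 (by positivity)
    have b2 : ‖RS (tw χ ((LU U * muV U) *
        (ArithmeticFunction.zeta : ArithmeticFunction ℝ))) y‖ ≤
        2 * (U:ℝ) ^ 2 * x * Real.log x * q := by
      refine h2.trans ?_
      calc (q:ℝ) * y * ∑ d ∈ Finset.Icc 1 ⌊y⌋₊, |(LU U * muV U) d|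
          ≤ (q * x) * ((U:ℝ) * U * (2 * Real.log x)) := by
            apply mul_le_mul _ _ (Finset.sum_nonneg fun _ _ => abs_nonneg _) (by positivity)
            · exact mul_le_mul_of_nonneg_left hyx (by positivity)
            · refine h5.trans ?_
              exact mul_le_mul_of_nonneg_left hlogU (by positivity)
        _ = 2 * (U:ℝ) ^ 2 * x * Real.log x * q := by ring
    have b3 : ‖RS (tw χ (muV U * ArithmeticFunction.log)) y‖ ≤
        2 * (U:ℝ) ^ 2 * x * Real.log x * q := by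
      refine h3.trans ?_
      calc 2 * (q:ℝ) * y * Real.log y * ∑ d ∈ Finset.Icc 1 ⌊y⌋₊, |muV U d|
          ≤ (2 * q * x * Real.log x) * (U:ℝ) ^ 2 := by
            apply mul_le_mul _ _ (Finset.sum_nonneg fun _ _ => abs_nonneg _) (by positivity)
            · apply mul_le_mul _ hlogyx hlogy0 (by positivity)
              exact mul_le_mul_of_nonneg_left hyx (by positivity)
            · exact h6.trans hUU
        _ = 2 * (U:ℝ) ^ 2 * x * Real.log x * q := by ring
    have b4 : ‖RS (tw χ (alphaU U * betaV U)) y‖ ≤ G2 q χ := h4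
    calc _ ≤ ‖RS (tw χ (LU U)) y‖ + ‖RS (tw χ ((LU U * muV U) *
            (ArithmeticFunction.zeta : ArithmeticFunction ℝ))) y‖ +
            ‖RS (tw χ (muV U * ArithmeticFunction.log)) y‖ +
            ‖RS (tw χ (alphaU U * betaV U)) y‖ := by
          refine (norm_add_le _ _).trans (add_le_add_left ?_ _)
          refine (norm_add_le _ _).trans (add_le_add_left ?_ _)
          exact norm_sub_le _ _
      _ ≤ G2 q χ + K * q := by
          rw [hKdef]
          linarith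
  · intro Q
    rw [primSum_add]
    have h1 := primSum_lin_le Q hK0
    have h2 := hG2s Q
    have hA : 0 ≤ x * Real.log x ^ 6 * (x + Q * x / √U + Q ^ 2 * √x) := by positivity
    have hB : 0 ≤ x * Real.log x * ((Q:ℝ) ^ 3 * (U:ℝ) ^ 2) := by positivity
    have h3 : C * x * (Real.log x) ^ 6 * (x + Q * x / √U + Q * x / √U + Q ^ 2 * √x) ≤
        2 * C * (x * Real.log x ^ 6 * (x + Q * x / √U + Q ^ 2 * √x)) := by
      have h4 : (x + Q * x / √U + Q * x / √U + Q ^ 2 * √x) ≤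
          2 * (x + Q * x / √U + Q ^ 2 * √x) := by
        have e1 : 0 ≤ (Q:ℝ) ^ 2 * √x := by positivity
        linarith
      calc _ ≤ C * x * (Real.log x) ^ 6 * (2 * (x + Q * x / √U + Q ^ 2 * √x)) :=
            mul_le_mul_of_nonneg_left h4 (by positivity)
        _ = _ := by ring
    have h5 : K * (Q:ℝ) ^ 3 = 6 * (x * Real.log x * ((Q:ℝ) ^ 3 * (U:ℝ) ^ 2)) := by
      rw [hKdef]
      ring
    have h6 : (2 * C + 6) * x * (Real.log x) ^ 6 * (x + Q * x / √U + Q ^ 2 * √x) =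
        2 * C * (x * Real.log x ^ 6 * (x + Q * x / √U + Q ^ 2 * √x)) +
        6 * (x * Real.log x ^ 6 * (x + Q * x / √U + Q ^ 2 * √x)) := by ring
    have h7 : (2 * C + 6) * x * Real.log x * ((Q:ℝ) ^ 3 * (U:ℝ) ^ 2) =
        2 * C * (x * Real.log x * ((Q:ℝ) ^ 3 * (U:ℝ) ^ 2)) +
        6 * (x * Real.log x * ((Q:ℝ) ^ 3 * (U:ℝ) ^ 2)) := by ring
    rw [h6, h7]
    have h8 : 0 ≤ 2 * C * (x * Real.log x * ((Q:ℝ) ^ 3 * (U:ℝ) ^ 2)) :=
      mul_nonneg (by linarith) hB
    linarith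

end Pool.Agent.BVH
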