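import Pool.Agent.Lib.BVH.Prim
import Pool.Agent.Lib.BVH.Dyad
import Pool.Agent.Lib.BV.Assemble

/-!
MODULE BVH.Riesz.  Riesz means in arithmetic progressions, level x^(1/2 - η).

As `riesz_ap` (BV/Assemble.lean) with Q = ⌊x^(1/2-η)⌋₊, U = ⌈x^(η/2)⌉₊, G from `prim_half U x`, the
large conductors by `dyad` with a = C x² L^6, b = C x² L^6/√U, c = C x √x L^6, d = C x L U²
(L = log x), Q0 = ⌈L^(A+9)⌉₊.
-/

set_option autoImplicit false

open Complex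

namespace Pool.Agent.BVH

open Pool.Agent.Lib.BV Pool.Agent.Lib.SW

theorem sum_Er' {G : (q : ℕ) → DirichletCharacter ℂ q → ℝ} (hG : ∀ q χ, 0 ≤ G q χ) {Q Q0 : ℕ}
    (hQ0 : 1 ≤ Q0) {c P M T : ℝ} (hc : 0 ≤ c)
    (hT : primSum Q (fun q χ => if q ≤ Q0 then 0 else G q χ / q.totient) ≤ T) :
    ∑ q ∈ Finset.Icc 1 Q, Er G Q0 c P M q ≤
      (∑ m ∈ Finset.Icc 1 Q, 1 / (m.totient : ℝ)) * P + Q * M +
      (∑ m ∈ Finset.Icc 1 Q, 1 / (m.totient : ℝ)) * (c * Q0 ^ 2 + T) := by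
  classical
  have hshift : ∀ f : ℕ → ℝ, ∑ q ∈ Finset.Icc 1 Q, f q = ∑ q ∈ Finset.range Q, f (q + 1) := by
    intro f
    rw [← Finset.Ico_add_one_right_eq_Icc, Finset.sum_Ico_eq_sum_range]
    refine Finset.sum_congr rfl fun i _ => ?_
    rw [add_comm]
  have h0 : ∑ q ∈ Finset.Icc 1 Q, Er G Q0 c P M q =
      (∑ m ∈ Finset.Icc 1 Q, 1 / (m.totient : ℝ)) * P + Q * M +
      ∑ q ∈ Finset.range Q, (1 / ((q+1).totient : ℝ)) * ∑ χ : DirichletCharacter ℂ (q+1),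
        (if χ = 1 then 0 else Lib.BV.Gp G Q0 c χ.conductor χ.primitiveCharacter) := by
    rw [hshift, hshift]
    simp only [Er]
    rw [Finset.sum_add_distrib, Finset.sum_add_distrib, Finset.sum_mul, Finset.sum_const,
      nsmul_eq_mul, Finset.card_range]
  have h1 := char_sum Q (Lib.BV.Gp G Q0 c) (Lib.BV.Gp_nonneg hG Q0 hc)
  have hS : 0 ≤ ∑ m ∈ Finset.Icc 1 Q, 1 / (m.totient : ℝ) :=
    Finset.sum_nonneg fun _ _ => by positivity
  have h2 : primSum Q (fun q χ => if q = 1 then 0 else Lib.BV.Gp G Q0 c q χ / q.totient) ≤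
      c * Q0 ^ 2 + T := by
    have h3 : primSum Q (fun q χ => if q = 1 then 0 else Lib.BV.Gp G Q0 c q χ / q.totient) ≤
        primSum Q (fun q χ => (if q ≤ Q0 then c * q / q.totient else 0) +
          (if q ≤ Q0 then 0 else G q χ / q.totient)) := by
      apply primSum_mono
      intro q χ
      unfold Lib.BV.Gp
      by_cases h1 : q = 1
      · rw [if_pos h1]
        split_ifs
        · positivity
        · have := hG q χ
          positivity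
      · rw [if_neg h1]
        split_ifs
        · simp
        · simp
    rw [primSum_add] at h3
    have h4 := primSum_small Q Q0 c hc
    linarith
  rw [h0]
  have h8 := mul_le_mul_of_nonneg_left h2 hS
  linarith [h1.trans h8]

theorem riesz_half (A : ℕ) {η : ℝ} (hη : 0 < η) (hη1 : η ≤ 1 / 4) :
    ∃ C x₀ : ℝ, 0 < C ∧ ∀ x : ℝ, x₀ ≤ x → ∃ E : ℕ → ℝ,
    (∀ q, 0 ≤ E q) ∧
    (∑ q ∈ Finset.Icc 1 ⌊x ^ (1 / 2 - η)⌋₊, E q ≤ C * x ^ 2 / (Real.log x) ^ A) ∧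
    ∀ q ∈ Finset.Icc 1 ⌊x ^ (1 / 2 - η)⌋₊, ∀ a : ℕ, a.Coprime q → ∀ y : ℝ, 1 ≤ y → y ≤ x →
      |RSap y q a - y ^ 2 / (2 * (q.totient : ℝ))| ≤ E q := by
  obtain ⟨C1, hC1, hprim⟩ := prim_half
  obtain ⟨C2, hC2, hsmall⟩ := RS_small (2 * (A + 9) + 1 + A)
  obtain ⟨C3, hC3, hprinc⟩ := RS_principal (A + 1)
  obtain ⟨C4, hC4, htot⟩ := sum_inv_totient
  have hev : ∀ᶠ x : ℝ in Filter.atTop, (Real.log x) ^ (A + 9) ≤ x ^ (η / 4) := by
    have h1 := (isLittleO_log_rpow_rpow_atTop ((A + 9 : ℕ) : ℝ) (show (0:ℝ) < η / 4 by positivity)).bound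
      (show (0:ℝ) < 1 by norm_num)
    filter_upwards [h1, Filter.eventually_ge_atTop (1:ℝ)] with x hx hx1
    rw [one_mul, Real.rpow_natCast] at hx
    have hl : 0 ≤ Real.log x := Real.log_nonneg hx1
    rwa [Real.norm_of_nonneg (by positivity), Real.norm_of_nonneg (by positivity)] at hx
  obtain ⟨x₁, hx₁⟩ := Filter.eventually_atTop.1 hev
  refine ⟨2 * C4 * C3 + 4 + 2 * C4 * (4 * C2) + 800 * C4 * (7 * C1), max 4 x₁, by positivity,
    fun x hx => ?_⟩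
  have hx4 : 4 ≤ x := (le_max_left _ _).trans hx
  have hx3 : 3 ≤ x := by linarith
  have hx0 : 0 < x := by linarith
  have hx1 : 1 ≤ x := by linarith
  have hxx := hx₁ x ((le_max_right _ _).trans hx)
  set L := Real.log x with hL
  have hL1 : 1 ≤ L := by
    rw [hL, Real.le_log_iff_exp_le (by linarith)]
    linarith [Real.exp_one_lt_d9]
  have hL0 : 0 < L := by linarith
  set Q := ⌊x ^ (1 / 2 - η)⌋₊ with hQdef
  have hQle : (Q : ℝ) ≤ x ^ (1 / 2 - η) := Nat.floor_le (by positivity)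
  have hQ1 : 1 ≤ Q := by
    rw [hQdef]
    apply Nat.le_floor
    rw [Nat.cast_one]
    exact Real.one_le_rpow (by linarith) (by linarith)
  have hQhalf : (Q : ℝ) ≤ x ^ (1 / 2 : ℝ) :=
    hQle.trans (Real.rpow_le_rpow_of_exponent_le hx1 (by linarith))
  have hQx : (Q : ℝ) ≤ x := hQhalf.trans (by
    calc x ^ (1 / 2 : ℝ) ≤ x ^ (1 : ℝ) := Real.rpow_le_rpow_of_exponent_le (by linarith) (by norm_num)
      _ = x := Real.rpow_one x)
  set z := x ^ (η / 4) with hz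
  have hz0 : 0 < z := by positivity
  have hz1 : 1 ≤ z := Real.one_le_rpow hx1 (by positivity)
  have hz2 : x ^ (η / 2) = z ^ 2 := by
    rw [hz, ← Real.rpow_natCast, ← Real.rpow_mul hx0.le]
    congr 1
    push_cast
    ring
  have hhalf : x ^ (1 / 2 : ℝ) * x ^ (1 / 2 : ℝ) = x := by
    rw [← Real.rpow_add hx0]
    norm_num
  have hsqrt : √x = x ^ (1 / 2 : ℝ) := Real.sqrt_eq_rpow x
  -- x^(1/2 - η) * z^4 = x^(1/2)
  have hz4 : x ^ (1 / 2 - η) * z ^ 4 = x ^ (1 / 2 : ℝ) := by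
    rw [hz, ← Real.rpow_natCast, ← Real.rpow_mul hx0.le, ← Real.rpow_add hx0]
    congr 1
    push_cast
    ring
  have hQz : (Q : ℝ) * z ^ 4 ≤ x ^ (1 / 2 : ℝ) := by
    calc (Q : ℝ) * z ^ 4 ≤ x ^ (1 / 2 - η) * z ^ 4 := by gcongr
      _ = _ := hz4
  have hzhalf : z ≤ x ^ (1 / 2 : ℝ) := Real.rpow_le_rpow_of_exponent_le hx1 (by linarith)
  set U := ⌈x ^ (η / 2)⌉₊ with hU
  have hUge : z ^ 2 ≤ U := by rw [← hz2]; exact Nat.le_ceil _
  have hUle : (U : ℝ) ≤ 2 * z ^ 2 := by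
    have h1 := Nat.ceil_lt_add_one (show 0 ≤ x ^ (η / 2) by positivity)
    rw [← hU, hz2] at h1
    nlinarith
  have hU1 : 1 ≤ U := by
    have : (1 : ℝ) ≤ U := by nlinarith
    exact_mod_cast this
  have hUx : (U : ℝ) ≤ x := by
    refine hUle.trans ?_
    have h1 : z ^ 2 ≤ x ^ (1 / 2 : ℝ) := by
      rw [← hz2]
      exact Real.rpow_le_rpow_of_exponent_le hx1 (by linarith)
    have h2 : 2 ≤ x ^ (1 / 2 : ℝ) := by
      rw [← hsqrt]
      exact Real.le_sqrt_of_sq_le (by linarith)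
    nlinarith [hhalf]
  have hsqU : z ≤ √(U : ℝ) := Real.le_sqrt_of_sq_le hUge
  have hsqU0 : 0 < √(U : ℝ) := lt_of_lt_of_le hz0 hsqU
  obtain ⟨G, hG0, hG1, hG2⟩ := hprim U x hx3 hU1 hUx
  set Q0 := ⌈L ^ (A + 9)⌉₊ with hQ0def
  have hLp : 1 ≤ L ^ (A + 9) := one_le_pow₀ hL1
  have hQ0ge : L ^ (A + 9) ≤ Q0 := Nat.le_ceil _
  have hQ0le : (Q0 : ℝ) ≤ 2 * L ^ (A + 9) := by
    have := Nat.ceil_lt_add_one (show 0 ≤ L ^ (A + 9) by positivity)
    rw [← hQ0def] at this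
    linarith
  have hQ01 : 1 ≤ Q0 := by
    have : (1:ℝ) ≤ Q0 := hLp.trans hQ0ge
    exact_mod_cast this
  set c := C2 * x ^ 2 / L ^ (2 * (A + 9) + 1 + A) with hc
  set P := C3 * x ^ 2 / L ^ (A + 1) with hP
  have hc0 : 0 ≤ c := by positivity
  have hP0 : 0 ≤ P := by positivity
  have hT := dyad Q Q0 hQ01 G hG0 (C1 * x ^ 2 * L ^ 6) (C1 * x ^ 2 * L ^ 6 / √(U : ℝ))
    (C1 * x * √x * L ^ 6) (C1 * x * L * (U : ℝ) ^ 2) (by positivity) (by positivity) (by positivity)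
    (by positivity) (fun Q' _ => by
      refine (hG2 Q').trans (le_of_eq ?_)
      rw [← hL]
      field_simp)
  refine ⟨Er G Q0 c P (4 * x * L ^ 2), Er_nonneg hG0 Q0 hc0 hP0 (by positivity), ?_, ?_⟩
  · refine (sum_Er' hG0 hQ01 hc0 hT).trans ?_
    have hS : ∑ m ∈ Finset.Icc 1 Q, 1 / (m.totient : ℝ) ≤ C4 * (2 * L) := by
      refine (htot Q hQ1).trans ?_
      have : Real.log Q ≤ L := Real.log_le_log (by exact_mod_cast hQ1) hQx
      gcongr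
      linarith
    have hS0 : 0 ≤ ∑ m ∈ Finset.Icc 1 Q, 1 / (m.totient : ℝ) :=
      Finset.sum_nonneg fun _ _ => by positivity
    have hlogQ : Real.log (Q + 2) ≤ 2 * L := by
      have h1 : (Q : ℝ) + 2 ≤ x ^ 2 := by
        calc (Q : ℝ) + 2 ≤ x + 2 := by linarith
          _ ≤ x * 2 := by linarith
          _ ≤ x * x := by gcongr; linarith
          _ = x ^ 2 := by ring
      calc Real.log (Q + 2) ≤ Real.log (x ^ 2) := Real.log_le_log (by positivity) h1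
        _ = 2 * L := by rw [Real.log_pow, ← hL]; norm_num
    have hlog0 : 0 ≤ Real.log ((Q:ℝ) + 2) := Real.log_nonneg (by
      have : (0:ℝ) ≤ Q := Nat.cast_nonneg Q
      linarith)
    have h1 : (∑ m ∈ Finset.Icc 1 Q, 1 / (m.totient : ℝ)) * P ≤ 2 * C4 * C3 * x ^ 2 / L ^ A := by
      calc (∑ m ∈ Finset.Icc 1 Q, 1 / (m.totient : ℝ)) * P ≤ C4 * (2 * L) * P := by gcongr
        _ = 2 * C4 * C3 * x ^ 2 / L ^ A := by
          rw [hP]
          field_simp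
          ring
    have h2 : (Q : ℝ) * (4 * x * L ^ 2) ≤ 4 * x ^ 2 / L ^ A := by
      rw [le_div_iff₀ (by positivity)]
      have h3 : L ^ 2 * L ^ A ≤ x ^ (1 / 2 : ℝ) := by
        calc L ^ 2 * L ^ A = L ^ (A + 2) := by ring
          _ ≤ L ^ (A + 9) := pow_le_pow_right₀ hL1 (by omega)
          _ ≤ z := hxx
          _ ≤ _ := hzhalf
      calc (Q : ℝ) * (4 * x * L ^ 2) * L ^ A = 4 * x * (Q * (L ^ 2 * L ^ A)) := by ring
        _ ≤ 4 * x * (x ^ (1 / 2 : ℝ) * x ^ (1 / 2 : ℝ)) := by gcongr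
        _ = 4 * x ^ 2 := by rw [hhalf]; ring
    have h3 : c * Q0 ^ 2 ≤ 4 * C2 * x ^ 2 / L ^ (A + 1) := by
      calc c * (Q0 : ℝ) ^ 2 ≤ c * (2 * L ^ (A + 9)) ^ 2 := by gcongr
        _ = 4 * C2 * x ^ 2 / L ^ (A + 1) := by
          rw [hc]
          have : L ^ (2 * (A + 9) + 1 + A) = (L ^ (A + 9)) ^ 2 * L ^ (A + 1) := by ring
          rw [this]
          field_simp
          ring
    -- the four terms of the large conductors
    have t1 : C1 * x ^ 2 * L ^ 6 / Q0 ≤ C1 * x ^ 2 / L ^ (A + 3) := by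
      calc C1 * x ^ 2 * L ^ 6 / (Q0 : ℝ) ≤ C1 * x ^ 2 * L ^ 6 / L ^ (A + 9) := by gcongr
        _ = _ := by
          have : L ^ (A + 9) = L ^ 6 * L ^ (A + 3) := by ring
          rw [this]
          field_simp
    have hzL : L ^ 6 ≤ z / L ^ (A + 3) := by
      rw [le_div_iff₀ (by positivity)]
      calc L ^ 6 * L ^ (A + 3) = L ^ (A + 9) := by ring
        _ ≤ z := hxx
    have t2 : C1 * x ^ 2 * L ^ 6 / √(U : ℝ) ≤ C1 * x ^ 2 / L ^ (A + 3) := by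
      calc C1 * x ^ 2 * L ^ 6 / √(U : ℝ) ≤ C1 * x ^ 2 * L ^ 6 / z := by gcongr
        _ ≤ C1 * x ^ 2 * (z / L ^ (A + 3)) / z := by gcongr
        _ = _ := by field_simp
    have t3 : C1 * x * √x * L ^ 6 * Q ≤ C1 * x ^ 2 / L ^ (A + 3) := by
      have h5 : (Q : ℝ) * z ≤ x ^ (1 / 2 : ℝ) := by
        refine le_trans ?_ hQz
        have : z ≤ z ^ 4 := by
          calc z = z ^ 1 := (pow_one z).symm
            _ ≤ z ^ 4 := pow_le_pow_right₀ hz1 (by norm_num)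
        gcongr
      calc C1 * x * √x * L ^ 6 * Q ≤ C1 * x * √x * (z / L ^ (A + 3)) * Q := by gcongr
        _ = C1 * x * √x / L ^ (A + 3) * (Q * z) := by ring
        _ ≤ C1 * x * √x / L ^ (A + 3) * x ^ (1 / 2 : ℝ) := by gcongr
        _ = C1 * x * (x ^ (1 / 2 : ℝ) * x ^ (1 / 2 : ℝ)) / L ^ (A + 3) := by rw [hsqrt]; ring
        _ = _ := by rw [hhalf]; ring
    have t4 : C1 * x * L * (U : ℝ) ^ 2 * Q ^ 2 ≤ 4 * C1 * x ^ 2 / L ^ (A + 3) := by
      have h5 : L ≤ z ^ 4 / L ^ (A + 3) := by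
        rw [le_div_iff₀ (by positivity)]
        calc L * L ^ (A + 3) = L ^ (A + 4) := by ring
          _ ≤ L ^ (A + 9) := pow_le_pow_right₀ hL1 (by omega)
          _ ≤ z := hxx
          _ = z ^ 1 := (pow_one z).symm
          _ ≤ z ^ 4 := pow_le_pow_right₀ hz1 (by norm_num)
      calc C1 * x * L * (U : ℝ) ^ 2 * Q ^ 2
          ≤ C1 * x * (z ^ 4 / L ^ (A + 3)) * (2 * z ^ 2) ^ 2 * Q ^ 2 := by gcongr
        _ = 4 * C1 * x / L ^ (A + 3) * ((Q * z ^ 4) * (Q * z ^ 4)) := by ring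
        _ ≤ 4 * C1 * x / L ^ (A + 3) * (x ^ (1 / 2 : ℝ) * x ^ (1 / 2 : ℝ)) := by gcongr
        _ = _ := by rw [hhalf]; ring
    have h4 : 100 * Real.log (Q + 2) ^ 2 * (C1 * x ^ 2 * L ^ 6 / Q0 + C1 * x ^ 2 * L ^ 6 / √(U : ℝ)
        + C1 * x * √x * L ^ 6 * Q + C1 * x * L * (U : ℝ) ^ 2 * Q ^ 2) ≤
        400 * (7 * C1) * x ^ 2 / L ^ (A + 1) := by
      have h5 : C1 * x ^ 2 * L ^ 6 / Q0 + C1 * x ^ 2 * L ^ 6 / √(U : ℝ)
        + C1 * x * √x * L ^ 6 * Q + C1 * x * L * (U : ℝ) ^ 2 * Q ^ 2 ≤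
        7 * C1 * x ^ 2 / L ^ (A + 3) := by
        calc _ ≤ C1 * x ^ 2 / L ^ (A + 3) + C1 * x ^ 2 / L ^ (A + 3) + C1 * x ^ 2 / L ^ (A + 3)
              + 4 * C1 * x ^ 2 / L ^ (A + 3) := by linarith
          _ = _ := by ring
      calc _ ≤ 100 * (2 * L) ^ 2 * (7 * C1 * x ^ 2 / L ^ (A + 3)) := by gcongr
        _ = 400 * (7 * C1) * x ^ 2 * (L ^ 2 / L ^ (A + 3)) := by ring
        _ = _ := by
          have : L ^ 2 / L ^ (A + 3) = 1 / L ^ (A + 1) := by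
            have h6 : L ^ (A + 3) = L ^ 2 * L ^ (A + 1) := by ring
            rw [h6]
            field_simp
          rw [this]
          ring
    have h5 : (∑ m ∈ Finset.Icc 1 Q, 1 / (m.totient : ℝ)) *
        (c * Q0 ^ 2 + 100 * Real.log (Q + 2) ^ 2 * (C1 * x ^ 2 * L ^ 6 / Q0
          + C1 * x ^ 2 * L ^ 6 / √(U : ℝ)
          + C1 * x * √x * L ^ 6 * Q + C1 * x * L * (U : ℝ) ^ 2 * Q ^ 2)) ≤
        (2 * C4 * (4 * C2) + 800 * C4 * (7 * C1)) * x ^ 2 / L ^ A := by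
      calc _ ≤ C4 * (2 * L) * (4 * C2 * x ^ 2 / L ^ (A + 1) + 400 * (7 * C1) * x ^ 2 / L ^ (A + 1)) := by
            have h6 := add_le_add h3 h4
            have h7 : 0 ≤ 4 * C2 * x ^ 2 / L ^ (A + 1) + 400 * (7 * C1) * x ^ 2 / L ^ (A + 1) := by
              positivity
            exact (mul_le_mul_of_nonneg_left h6 hS0).trans (mul_le_mul_of_nonneg_right hS h7)
        _ = _ := by
          field_simp
          ring
    calc _ ≤ 2 * C4 * C3 * x ^ 2 / L ^ A + 4 * x ^ 2 / L ^ A +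
          (2 * C4 * (4 * C2) + 800 * C4 * (7 * C1)) * x ^ 2 / L ^ A :=
          add_le_add (add_le_add h1 h2) h5
      _ = _ := by ring
  · intro q hq a ha y hy hyx
    refine RSap_le_Er (Q := Q) (fun q _ χ _ h2 y h3 h4 => hG1 q χ h2 y h3 h4)
      (fun q _ χ h1 y h2 h3 => ?_) (fun q _ h1 y h2 h3 => hprinc q x hx3 h1 y h2 h3) hQx hq a ha hy hyx
    have := hsmall q χ h1 x hx3 y h2 h3
    rw [hc]
    calc _ ≤ C2 * q * x ^ 2 / L ^ (2 * (A + 9) + 1 + A) := this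
      _ = _ := by ring

end Pool.Agent.BVH
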