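import Pool.Agent.Lib.BVH.Pair
import Pool.Agent.Lib.BV.PrimBound

/-!
MODULE BVH.TypeII (1.2 h).  Type II sums, all conductors.

PROOF.  X = ⌊x⌋₊, f = alphaU U, g = betaV V, |f n| ≤ log n, |g n| ≤ τ(n) (`alphaU_abs_le`,
`betaV_abs_le`, BV/Vaughan.lean).  Exactly as in `typeII` (BV/TypeII.lean): by `t2_rect`, `t2_restrict`
RS(...) y = ∑_{m ∈ Ioc U X} ∑_{k ∈ Ioc V X} a m * b k * max (y - m k) 0.  Split Ioc U X into the blocks
blk U X i, i ∈ range (Nat.log 2 X + 1) (`Finset.sum_fiberwise_of_maps_to`), and Ioc V X likewise.  Let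
J be the set of the pairs (i, j) with 2^(i+j) ≤ x, U < 2^(i+1), V < 2^(j+1).  Pairs outside J contribute
0: the block is empty, or all m k ≥ 2^(i+j) > x ≥ y.  G q χ = ∑_{(i,j) ∈ J} Gp x f g U V X i j q χ
(it does not depend on Q); `pair_le`, `Gp_nonneg`.
`pair_sum` with F = log, G = τ: √((1 + log X)³ (1 + log X)⁴) ≤ (2 log x)^4 (`sum_log_sq_div`,
`sum_tau_sq_div`, log x ≥ 1), 2^i ≥ U/2 (as U < 2^(i+1)), so 1/√(2^i) ≤ √2/√U, the same for V; |J| ≤
(Nat.log 2 X + 1)² ≤ (3 log x)².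
-/

set_option autoImplicit false

open Complex MeasureTheory

namespace Pool.Agent.BVH

open Pool.Agent.Lib.BV

namespace TypeIIAux

lemma primSum_sum {ι : Type} (J : Finset ι) (Q : ℕ)
    (F : ι → (q : ℕ) → DirichletCharacter ℂ q → ℝ) :
    primSum Q (fun q χ => ∑ p ∈ J, F p q χ) = ∑ p ∈ J, primSum Q (F p) := by
  unfold primSum
  rw [Finset.sum_comm]
  refine Finset.sum_congr rfl fun q _ => ?_
  rw [Finset.sum_comm]
  refine Finset.sum_congr rfl fun χ _ => ?_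
  split_ifs
  · rfl
  · simp

/-- splitting into blocks -/
lemma split (U X : ℕ) (f : ℕ → ℂ) :
    ∑ m ∈ Finset.Ioc U X, f m = ∑ i ∈ Finset.range (Nat.log 2 X + 1), ∑ m ∈ blk U X i, f m := by
  unfold blk
  symm
  apply Finset.sum_fiberwise_of_maps_to
  intro m hm
  rw [Finset.mem_Ioc] at hm
  rw [Finset.mem_range]
  have := Nat.log_mono_right (b := 2) hm.2
  omega

lemma mem_blk {U X i m : ℕ} (h : m ∈ blk U X i) : U < m ∧ m ≤ X ∧ 2 ^ i ≤ m ∧ m < 2 ^ (i + 1) := by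
  unfold blk at h
  rw [Finset.mem_filter, Finset.mem_Ioc] at h
  obtain ⟨⟨h1, h2⟩, h3⟩ := h
  have hm : m ≠ 0 := by omega
  refine ⟨h1, h2, ?_, ?_⟩
  · rw [← h3]
    exact Nat.pow_log_le_self 2 hm
  · rw [← h3]
    exact Nat.lt_pow_succ_log_self (by norm_num) m

/-- the pairs of blocks which matter -/
noncomputable def JJ (U V X : ℕ) (x : ℝ) : Finset (ℕ × ℕ) :=
  (Finset.range (Nat.log 2 X + 1) ×ˢ Finset.range (Nat.log 2 X + 1)).filter
    (fun p => (2:ℝ) ^ (p.1 + p.2) ≤ x ∧ U < 2 ^ (p.1 + 1) ∧ V < 2 ^ (p.2 + 1))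

lemma zero_block {U V X : ℕ} {x y : ℝ} (hyx : y ≤ x) (a b : ℕ → ℂ) (p : ℕ × ℕ)
    (hp : ¬ ((2:ℝ) ^ (p.1 + p.2) ≤ x ∧ U < 2 ^ (p.1 + 1) ∧ V < 2 ^ (p.2 + 1))) :
    ∑ m ∈ blk U X p.1, ∑ k ∈ blk V X p.2, a m * b k * ((max (y - m * k) 0 : ℝ) : ℂ) = 0 := by
  refine Finset.sum_eq_zero fun m hm => Finset.sum_eq_zero fun k hk => ?_
  obtain ⟨m1, m2, m3, m4⟩ := mem_blk hm
  obtain ⟨k1, k2, k3, k4⟩ := mem_blk hk
  have h1 : ¬ ((2:ℝ) ^ (p.1 + p.2) ≤ x) := fun h => hp ⟨h, by omega, by omega⟩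
  rw [not_le] at h1
  have h2 : (2:ℝ) ^ (p.1 + p.2) ≤ (m : ℝ) * k := by
    rw [pow_add]
    have e1 : (2:ℝ) ^ p.1 ≤ m := by exact_mod_cast m3
    have e2 : (2:ℝ) ^ p.2 ≤ k := by exact_mod_cast k3
    exact mul_le_mul e1 e2 (by positivity) (by positivity)
  rw [max_eq_right (by linarith)]
  simp

lemma sum_eq {U V X : ℕ} {x y : ℝ} (hyx : y ≤ x) (a b : ℕ → ℂ) :
    ∑ m ∈ Finset.Ioc U X, ∑ k ∈ Finset.Ioc V X, a m * b k * ((max (y - m * k) 0 : ℝ) : ℂ) =
      ∑ p ∈ JJ U V X x, ∑ m ∈ blk U X p.1, ∑ k ∈ blk V X p.2,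
        a m * b k * ((max (y - m * k) 0 : ℝ) : ℂ) := by
  rw [split U X]
  have h1 : ∀ i, ∑ m ∈ blk U X i, ∑ k ∈ Finset.Ioc V X, a m * b k * ((max (y - m * k) 0 : ℝ) : ℂ) =
      ∑ j ∈ Finset.range (Nat.log 2 X + 1), ∑ m ∈ blk U X i, ∑ k ∈ blk V X j,
        a m * b k * ((max (y - m * k) 0 : ℝ) : ℂ) := by
    intro i
    rw [Finset.sum_comm (s := Finset.range (Nat.log 2 X + 1))]
    exact Finset.sum_congr rfl fun m _ => split V X _
  simp_rw [h1]
  rw [← Finset.sum_product' (f := fun i j => ∑ m ∈ blk U X i, ∑ k ∈ blk V X j,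
        a m * b k * ((max (y - m * k) 0 : ℝ) : ℂ))]
  unfold JJ
  rw [Finset.sum_filter]
  refine Finset.sum_congr rfl fun p _ => ?_
  split_ifs with h
  · rfl
  · exact zero_block hyx a b p h

end TypeIIAux

open TypeIIAux in
theorem typeII_half : ∃ C : ℝ, 0 < C ∧ ∀ (U V : ℕ) (x : ℝ), 3 ≤ x → 1 ≤ U → 1 ≤ V →
    ∃ G : (q : ℕ) → DirichletCharacter ℂ q → ℝ, (∀ q χ, 0 ≤ G q χ) ∧
      (∀ (q : ℕ) (χ : DirichletCharacter ℂ q) (y : ℝ), 1 ≤ y → y ≤ x →
        ‖RS (fun n => (((alphaU U * betaV V) n : ℝ) : ℂ) * χ (n : ZMod q)) y‖ ≤ G q χ) ∧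
      ∀ Q : ℕ, primSum Q G ≤ C * x * (Real.log x) ^ 6 *
        (x + Q * x / √U + Q * x / √V + Q ^ 2 * √x) := by
  obtain ⟨C, hC0, hC⟩ := pair_sum
  refine ⟨288 * C, by positivity, ?_⟩
  intro U V x hx hU hV
  set X : ℕ := ⌊x⌋₊ with hX
  have hx0 : 0 < x := by linarith
  have hX1 : 1 ≤ X := by
    rw [hX, Nat.one_le_floor_iff]
    linarith
  have hXx : (X:ℝ) ≤ x := Nat.floor_le hx0.le
  have hX0 : (0:ℝ) < X := by exact_mod_cast hX1
  refine ⟨fun q χ => ∑ p ∈ JJ U V X x, Gp x (alphaU U) (betaV V) U V X p.1 p.2 q χ, ?_, ?_, ?_⟩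
  · intro q χ
    exact Finset.sum_nonneg fun p _ => Gp_nonneg hx0.le _ _ _ _ _ _ _ _ _
  · intro q χ y hy1 hyx
    have hfl : ⌊y⌋₊ ≤ X := Nat.floor_le_floor hyx
    set a : ℕ → ℂ := fun m => ((alphaU U m : ℝ) : ℂ) * χ (m : ZMod q) with ha
    set b : ℕ → ℂ := fun m => ((betaV V m : ℝ) : ℂ) * χ (m : ZMod q) with hb
    have e1 : RS (fun n => (((alphaU U * betaV V) n : ℝ) : ℂ) * χ (n : ZMod q)) y =
        ∑ n ∈ Finset.Icc 1 ⌊y⌋₊, (∑ p ∈ n.divisorsAntidiagonal, a p.1 * b p.2)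
          * ((y - n : ℝ) : ℂ) := by
      unfold RS
      refine Finset.sum_congr rfl fun n _ => ?_
      congr 1
      show (((alphaU U * betaV V) n : ℝ) : ℂ) * χ (n : ZMod q) = _
      rw [ArithmeticFunction.mul_apply]
      push_cast
      rw [Finset.sum_mul]
      refine Finset.sum_congr rfl fun p hp => ?_
      rw [Nat.mem_divisorsAntidiagonal] at hp
      simp only [ha, hb]
      rw [← hp.1]
      push_cast
      rw [map_mul]
      ring
    rw [e1, t2_rect a b X y (by linarith) hfl, t2_restrict a b U V X y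
      (fun m hm => by simp only [ha]; rw [alphaU_apply_of_le hm]; simp)
      (fun m hm => by simp only [hb]; rw [betaV_apply_of_le hV hm]; simp), sum_eq hyx a b]
    refine (norm_sum_le _ _).trans (Finset.sum_le_sum fun p _ => ?_)
    exact pair_le hy1 hyx (alphaU U) (betaV V) U V X p.1 p.2 q χ
  · intro Q
    have hlX : 0 ≤ Real.log X := Real.log_nonneg (by exact_mod_cast hX1)
    have hlx1 : 1 ≤ Real.log x := by
      have h := Real.exp_one_lt_d9
      have h2 := Real.log_le_log (Real.exp_pos 1) (show Real.exp 1 ≤ x by linarith)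
      rwa [Real.log_exp] at h2
    have hlXx : Real.log X ≤ Real.log x := Real.log_le_log hX0 hXx
    rw [primSum_sum]
    set R : ℝ := C * x * (x + 2 * (Q * x / √U) + 2 * (Q * x / √V) + Q ^ 2 * √x) *
      (2 * Real.log x) ^ 4 with hR
    have hUs : 0 < √(U : ℝ) := Real.sqrt_pos.mpr (by exact_mod_cast hU)
    have hVs : 0 < √(V : ℝ) := Real.sqrt_pos.mpr (by exact_mod_cast hV)
    have hQ0 : (0:ℝ) ≤ Q := Nat.cast_nonneg Q
    have hR0 : 0 ≤ R := by
      rw [hR]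
      positivity
    have hA2 := sum_log_sq_div X hX1
    have hB2 := sum_tau_sq_div X hX1
    have hsq : √((∑ n ∈ Finset.Icc 1 X, Real.log n ^ 2 / n) *
        (∑ n ∈ Finset.Icc 1 X, ((n.divisors.card : ℝ)) ^ 2 / n)) ≤ (2 * Real.log x) ^ 4 := by
      rw [Real.sqrt_le_left (by positivity)]
      have h1 : ∑ n ∈ Finset.Icc 1 X, Real.log n ^ 2 / n ≤ (2 * Real.log x) ^ 4 := by
        refine hA2.trans ?_
        calc (1 + Real.log X) ^ 3 ≤ (2 * Real.log x) ^ 3 :=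
              pow_le_pow_left₀ (by linarith) (by linarith) 3
          _ ≤ (2 * Real.log x) ^ 4 := pow_le_pow_right₀ (by linarith) (by norm_num)
      have h2 : ∑ n ∈ Finset.Icc 1 X, ((n.divisors.card : ℝ)) ^ 2 / n ≤ (2 * Real.log x) ^ 4 := by
        refine hB2.trans ?_
        exact pow_le_pow_left₀ (by linarith) (by linarith) 4
      rw [sq]
      exact mul_le_mul h1 h2 (Finset.sum_nonneg fun n _ => by positivity) (by positivity)
    have hterm : ∀ p ∈ JJ U V X x,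
        primSum Q (fun q χ => Gp x (alphaU U) (betaV V) U V X p.1 p.2 q χ) ≤ R := by
      intro p hp
      unfold JJ at hp
      rw [Finset.mem_filter] at hp
      obtain ⟨-, hp1, hp2, hp3⟩ := hp
      have h1 := hC (alphaU U) (fun n => Real.log n) (betaV V) (fun n => (n.divisors.card : ℝ))
        (alphaU_abs_le U) (betaV_abs_le hV) x Q U V X p.1 p.2 hx0.le hp1
      refine h1.trans ?_
      have hdiv : ∀ (W i : ℕ), 1 ≤ W → W < 2 ^ (i + 1) →
          (Q : ℝ) * x / √(2 ^ i) ≤ 2 * (Q * x / √W) := by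
        intro W i hW1 hW
        have hWs : 0 < √(W : ℝ) := Real.sqrt_pos.mpr (by exact_mod_cast hW1)
        have h2s : 0 < √((2:ℝ) ^ i) := Real.sqrt_pos.mpr (by positivity)
        have h3 : √(W : ℝ) ≤ 2 * √((2:ℝ) ^ i) := by
          rw [Real.sqrt_le_left (by positivity), mul_pow, Real.sq_sqrt (by positivity)]
          have : (W : ℝ) ≤ 2 ^ (i + 1) := by exact_mod_cast hW.le
          rw [pow_succ] at this
          have h4 : (0:ℝ) < 2 ^ i := by positivity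
          linarith
        rw [← mul_div_assoc, div_le_div_iff₀ h2s hWs]
        have h5 : 0 ≤ (Q:ℝ) * x := by positivity
        nlinarith
      have h2 := hdiv U p.1 hU hp2
      have h3 := hdiv V p.2 hV hp3
      rw [hR]
      refine mul_le_mul ?_ hsq (Real.sqrt_nonneg _) (by positivity)
      refine mul_le_mul_of_nonneg_left ?_ (by positivity)
      linarith
    have hcard : ((JJ U V X x).card : ℝ) ≤ (3 * Real.log x) ^ 2 := by
      have h1 : (JJ U V X x).card ≤ (Nat.log 2 X + 1) ^ 2 := by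
        unfold JJ
        refine (Finset.card_filter_le _ _).trans ?_
        rw [Finset.card_product, Finset.card_range, sq]
      have h2 : ((Nat.log 2 X + 1 : ℕ) : ℝ) ≤ 3 * Real.log x := by
        have h3 : (2:ℝ) ^ (Nat.log 2 X) ≤ x := by
          have : 2 ^ (Nat.log 2 X) ≤ X := Nat.pow_log_le_self 2 (by omega)
          have h4 : ((2 ^ (Nat.log 2 X) : ℕ) : ℝ) ≤ X := by exact_mod_cast this
          push_cast at h4
          linarith
        have h4 := Real.log_le_log (by positivity) h3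
        rw [Real.log_pow] at h4
        have h5 := Real.log_two_gt_d9
        push_cast
        have h6 : (0:ℝ) ≤ (Nat.log 2 X : ℝ) := Nat.cast_nonneg _
        nlinarith
      calc ((JJ U V X x).card : ℝ) ≤ (((Nat.log 2 X + 1) ^ 2 : ℕ) : ℝ) := by exact_mod_cast h1
        _ = ((Nat.log 2 X + 1 : ℕ) : ℝ) ^ 2 := by push_cast; ring
        _ ≤ _ := pow_le_pow_left₀ (by positivity) h2 2
    calc ∑ p ∈ JJ U V X x, primSum Q (fun q χ => Gp x (alphaU U) (betaV V) U V X p.1 p.2 q χ)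
        ≤ ∑ _p ∈ JJ U V X x, R := Finset.sum_le_sum hterm
      _ = (JJ U V X x).card * R := by rw [Finset.sum_const, nsmul_eq_mul]
      _ ≤ (3 * Real.log x) ^ 2 * R := mul_le_mul_of_nonneg_right hcard hR0
      _ = 144 * C * x * Real.log x ^ 6 * (x + 2 * (Q * x / √U) + 2 * (Q * x / √V) + Q ^ 2 * √x) := by
          rw [hR]
          ring
      _ ≤ 288 * C * x * Real.log x ^ 6 * (x + Q * x / √U + Q * x / √V + Q ^ 2 * √x) := by
          have h1 : x + 2 * (Q * x / √U) + 2 * (Q * x / √V) + Q ^ 2 * √x ≤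
              2 * (x + Q * x / √U + Q * x / √V + Q ^ 2 * √x) := by
            have h7 : 0 ≤ (Q:ℝ) ^ 2 * √x := by positivity
            linarith
          calc 144 * C * x * Real.log x ^ 6 * (x + 2 * (Q * x / √U) + 2 * (Q * x / √V) + Q ^ 2 * √x)
              ≤ 144 * C * x * Real.log x ^ 6 * (2 * (x + Q * x / √U + Q * x / √V + Q ^ 2 * √x)) :=
                mul_le_mul_of_nonneg_left h1 (by positivity)
            _ = _ := by ring

end Pool.Agent.BVH
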